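import Mathlib

set_option autoImplicit false
set_option linter.unusedSectionVars false

/-! The leading coefficients of the motions of circulant graphs modulo a prime. -/

namespace Pool.Agent.T2h34.Circ

open Finset Polynomial

variable {p : ℕ} [hpF : Fact p.Prime]

/-- the coefficient of `s ^ l * g ^ (a + e - l)` in `((g + s) ^ a - g ^ a) * ((g + s) ^ e - g ^ e)` -/
def hc (p a e l : ℕ) : ZMod p :=
  ((a + e).choose l : ZMod p) - (e.choose l : ZMod p) - (a.choose l : ZMod p) +
    if l = 0 then 1 else 0

theorem hc_zero (a e : ℕ) : hc p a e 0 = 0 := by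
  unfold hc
  simp

theorem hc_one (a e : ℕ) : hc p a e 1 = 0 := by
  unfold hc
  simp

theorem expand_aux (a e : ℕ) (g s : ZMod p) :
    (g + s) ^ e * g ^ a = ∑ l ∈ range (a + e + 1), (e.choose l : ZMod p) * s ^ l * g ^ (a + e - l) := by
  rw [add_comm g s, add_pow, sum_mul]
  have h : ∑ l ∈ range (e + 1), (e.choose l : ZMod p) * s ^ l * g ^ (a + e - l) =
      ∑ l ∈ range (a + e + 1), (e.choose l : ZMod p) * s ^ l * g ^ (a + e - l) := by
    apply sum_subset
    · intro l hl
      rw [mem_range] at *
      omega
    · intro l _ hl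
      rw [mem_range, not_lt] at hl
      rw [Nat.choose_eq_zero_of_lt (by omega), Nat.cast_zero, zero_mul, zero_mul]
  rw [← h]
  refine sum_congr rfl fun l hl => ?_
  rw [mem_range] at hl
  have : a + e - l = (e - l) + a := by omega
  rw [this, pow_add]
  ring

theorem expand (a e : ℕ) (g s : ZMod p) :
    ((g + s) ^ a - g ^ a) * ((g + s) ^ e - g ^ e) =
      ∑ l ∈ range (a + e + 1), hc p a e l * s ^ l * g ^ (a + e - l) := by
  have h1 : (g + s) ^ (a + e) =
      ∑ l ∈ range (a + e + 1), ((a + e).choose l : ZMod p) * s ^ l * g ^ (a + e - l) := by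
    have := expand_aux 0 (a + e) g s
    simpa using this
  have h2 := expand_aux a e g s
  have h3 : (g + s) ^ a * g ^ e =
      ∑ l ∈ range (a + e + 1), (a.choose l : ZMod p) * s ^ l * g ^ (a + e - l) := by
    have := expand_aux e a g s
    rwa [add_comm e a] at this
  have h4 : g ^ (a + e) = ∑ l ∈ range (a + e + 1),
      (if l = 0 then (1 : ZMod p) else 0) * s ^ l * g ^ (a + e - l) := by
    rw [Finset.sum_eq_single 0]
    · simp
    · intro b _ hb
      simp [hb]
    · intro h
      exact absurd (mem_range.2 (Nat.succ_pos _)) h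
  have h5 : ((g + s) ^ a - g ^ a) * ((g + s) ^ e - g ^ e) =
      (g + s) ^ (a + e) - (g + s) ^ e * g ^ a - (g + s) ^ a * g ^ e + g ^ (a + e) := by
    rw [pow_add, pow_add]
    ring
  rw [h5, h1, h2, h3, h4, ← sum_sub_distrib, ← sum_sub_distrib, ← sum_add_distrib]
  refine sum_congr rfl fun l _ => ?_
  unfold hc
  ring

theorem expand' (a e N : ℕ) (hN : a + e < N) (g s : ZMod p) :
    ((g + s) ^ a - g ^ a) * ((g + s) ^ e - g ^ e) =
      ∑ n ∈ range N, (if n ≤ a + e then hc p a e (a + e - n) * s ^ (a + e - n) else 0) * g ^ n := by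
  rw [expand]
  have h1 : ∑ l ∈ range (a + e + 1), hc p a e l * s ^ l * g ^ (a + e - l) =
      ∑ n ∈ range (a + e + 1), hc p a e (a + e - n) * s ^ (a + e - n) * g ^ n := by
    rw [← Finset.sum_flip]
    refine sum_congr rfl fun l hl => ?_
    rw [mem_range] at hl
    rw [Nat.sub_sub_self (by omega)]
  rw [h1]
  have h2 : ∑ n ∈ range (a + e + 1), hc p a e (a + e - n) * s ^ (a + e - n) * g ^ n =
      ∑ n ∈ range (a + e + 1),
        (if n ≤ a + e then hc p a e (a + e - n) * s ^ (a + e - n) else 0) * g ^ n := by
    refine sum_congr rfl fun n hn => ?_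
    rw [mem_range] at hn
    rw [if_pos (by omega)]
  rw [h2]
  apply sum_subset
  · intro l hl
    rw [mem_range] at *
    omega
  · intro l _ hl
    rw [mem_range, not_lt] at hl
    rw [if_neg (by omega), zero_mul]

/-- A polynomial which vanishes everywhere has small coefficients zero. -/
theorem coeff_zero_of_eval (R : (ZMod p)[X]) (hR : ∀ g, R.eval g = 0) (E n : ℕ)
    (hE : ∀ m, E < m + 2 → R.coeff m = 0) (hn : n < p) (hnE : E < n + p + 1) : R.coeff n = 0 := by
  have hp2 : 2 ≤ p := hpF.out.two_le
  set M : (ZMod p)[X] := X ^ p - X with hM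
  have hMm : M.Monic := by
    apply monic_X_pow_sub
    rw [degree_X]
    exact_mod_cast hp2
  have hMd : M.natDegree = p := by
    have := FiniteField.X_pow_card_sub_X_natDegree_eq (K' := ZMod p) (p := p) (by omega)
    exact this
  have hM0 : ∀ g, M.eval g = 0 := by
    intro g
    simp [hM, ZMod.pow_card]
  have hmod : R %ₘ M = 0 := by
    by_contra hne
    have h1 : (R %ₘ M).natDegree < M.natDegree := natDegree_modByMonic_lt R hMm (by
      intro h1
      rw [h1, natDegree_one] at hMd
      omega)
    refine hne (eq_zero_of_natDegree_lt_card_of_eval_eq_zero' (R %ₘ M) Finset.univ ?_ ?_)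
    · intro g _
      have := congrArg (eval g) (modByMonic_add_div R M)
      rw [eval_add, eval_mul, hM0, zero_mul, add_zero, hR] at this
      exact this
    · rw [Finset.card_univ, ZMod.card]
      omega
  have hdvd : R = M * (R /ₘ M) := by
    have := modByMonic_add_div R M
    rw [hmod, zero_add] at this
    exact this.symm
  set Q := R /ₘ M with hQ
  by_cases hQ0 : Q = 0
  · rw [hdvd, hQ0, mul_zero, coeff_zero]
  have hdeg : R.natDegree = p + Q.natDegree := by
    conv_lhs => rw [hdvd]
    rw [hMm.natDegree_mul' hQ0, hMd]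
  have hR0 : R ≠ 0 := by
    intro h0
    rw [h0] at hdvd
    rcases mul_eq_zero.1 hdvd.symm with h | h
    · exact hMm.ne_zero h
    · exact hQ0 h
  have hlead : R.natDegree + 2 ≤ E := by
    by_contra hlt
    exact (leadingCoeff_ne_zero.2 hR0) (hE R.natDegree (by omega))
  have hQn : Q.natDegree + p + 2 ≤ E := by omega
  conv_lhs => rw [hdvd]
  rw [hM, sub_mul, coeff_sub, coeff_X_pow_mul', if_neg (by omega), zero_sub, neg_eq_zero]
  rcases Nat.eq_zero_or_pos n with rfl | hn0
  · simp
  · obtain ⟨n', rfl⟩ : ∃ n', n = n' + 1 := ⟨n - 1, by omega⟩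
    rw [coeff_X_mul]
    apply coeff_eq_zero_of_natDegree_lt
    omega

variable {ι : Type*} [Fintype ι]

/-- **Leading coefficients.** -/
theorem star (a : ι → ℕ) (c : ι → ℕ → ZMod p) (S : Finset (ZMod p)) (hS0 : (0 : ZMod p) ∉ S)
    (hF : ∀ g : ZMod p, ∀ s ∈ S, ∑ i, ∑ e ∈ range p,
      c i e * (((g + s) ^ a i - g ^ a i) * ((g + s) ^ e - g ^ e)) = 0)
    (E : ℕ) (hE : ∀ i, ∀ e ∈ range p, c i e ≠ 0 → a i + e ≤ E)
    (j : ℕ) (hj2 : 2 ≤ j) (hjS : j ≤ S.card + 1) (hjE : j ≤ E) (hEp : E < p + j) (hjp : j ≤ p) :
    ∑ i, ∑ e ∈ range p, (if a i + e = E then c i e * hc p (a i) e j else 0) = 0 := by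
  classical
  set N : ℕ := ∑ i, a i + p with hN
  have haN : ∀ i, ∀ e ∈ range p, a i + e < N := by
    intro i e he
    rw [mem_range] at he
    have := Finset.single_le_sum (f := a) (fun i _ => Nat.zero_le _) (mem_univ i)
    omega
  set φ : ℕ → ZMod p → ZMod p := fun n s => ∑ i, ∑ e ∈ range p,
    (if n ≤ a i + e then c i e * (hc p (a i) e (a i + e - n) * s ^ (a i + e - n)) else 0) with hφ
  have h1 : ∀ g : ZMod p, ∀ s ∈ S, ∑ n ∈ range N, φ n s * g ^ n = 0 := by
    intro g s hs
    rw [← hF g s hs]
    simp only [hφ]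
    simp only [sum_mul]
    rw [sum_comm]
    refine sum_congr rfl fun i _ => ?_
    rw [sum_comm]
    refine sum_congr rfl fun e he => ?_
    rw [expand' _ _ N (haN i e he), mul_sum]
    refine sum_congr rfl fun n _ => ?_
    split_ifs <;> ring
  set n := E - j with hn
  have h2 : ∀ s ∈ S, φ n s = 0 := by
    intro s hs
    set R : (ZMod p)[X] := ∑ m ∈ range N, monomial m (φ m s) with hR
    have hRc : ∀ m, R.coeff m = if m < N then φ m s else 0 := by
      intro m
      rw [hR, finsetSum_coeff]
      simp only [coeff_monomial]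
      rw [Finset.sum_ite_eq']
      simp only [mem_range]
    have hφ0 : ∀ m, E < m + 2 → φ m s = 0 := by
      intro m hm
      simp only [hφ]
      refine sum_eq_zero fun i _ => sum_eq_zero fun e he => ?_
      split_ifs with hle
      · by_cases hce : c i e = 0
        · rw [hce, zero_mul]
        · have := hE i e he hce
          have h01 : a i + e - m = 0 ∨ a i + e - m = 1 := by omega
          rcases h01 with h0 | h0
          · rw [h0, hc_zero]; ring
          · rw [h0, hc_one]; ring
      · rfl
    have hcz : R.coeff n = 0 := by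
      apply coeff_zero_of_eval R ?_ E n ?_ ?_ ?_
      · intro g
        rw [hR, eval_finsetSum]
        simp only [eval_monomial]
        exact h1 g s hs
      · intro m hm
        rw [hRc]
        split_ifs
        · exact hφ0 m hm
        · rfl
      · omega
      · omega
    rw [hRc] at hcz
    by_cases hnN : n < N
    · rwa [if_pos hnN] at hcz
    · simp only [hφ]
      refine sum_eq_zero fun i _ => sum_eq_zero fun e he => ?_
      have := haN i e he
      rw [if_neg (by omega)]
  set V : (ZMod p)[X] := ∑ i, ∑ e ∈ range p,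
    (if n + 2 ≤ a i + e then monomial (a i + e - n - 2) (c i e * hc p (a i) e (a i + e - n))
      else 0) with hV
  have hVe : ∀ s, s ^ 2 * V.eval s = φ n s := by
    intro s
    rw [hV, eval_finsetSum, mul_sum]
    simp only [hφ]
    refine sum_congr rfl fun i _ => ?_
    rw [eval_finsetSum, mul_sum]
    refine sum_congr rfl fun e _ => ?_
    by_cases h : n + 2 ≤ a i + e
    · rw [if_pos h, if_pos (by omega), eval_monomial]
      have : a i + e - n = (a i + e - n - 2) + 2 := by omega
      conv_rhs => rw [this, pow_add, ← this]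
      ring
    · rw [if_neg h, eval_zero, mul_zero]
      split_ifs with h'
      · have h01 : a i + e - n = 0 ∨ a i + e - n = 1 := by omega
        rcases h01 with h0 | h0
        · rw [h0, hc_zero]; ring
        · rw [h0, hc_one]; ring
      · rfl
  have hV0 : V = 0 := by
    refine eq_zero_of_natDegree_lt_card_of_eval_eq_zero' V S ?_ ?_
    · intro s hs
      have h3 := hVe s
      rw [h2 s hs] at h3
      rcases mul_eq_zero.1 h3 with h4 | h4
      · exact absurd (pow_eq_zero_iff (two_ne_zero) |>.1 h4) (fun h => hS0 (h ▸ hs))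
      · exact h4
    · have : V.natDegree ≤ j - 2 := by
        rw [hV]
        refine natDegree_sum_le_of_forall_le _ _ fun i _ => ?_
        refine natDegree_sum_le_of_forall_le _ _ fun e he => ?_
        split_ifs with h
        · by_cases hce : c i e = 0
          · rw [hce, zero_mul, map_zero, natDegree_zero]
            exact Nat.zero_le _
          · have := hE i e he hce
            refine (natDegree_monomial_le _).trans ?_
            omega
        · rw [natDegree_zero]
          exact Nat.zero_le _
      omega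
  have h5 : V.coeff (j - 2) = 0 := by rw [hV0, coeff_zero]
  rw [hV, finsetSum_coeff] at h5
  refine Eq.trans ?_ h5
  refine sum_congr rfl fun i _ => ?_
  rw [finsetSum_coeff]
  refine sum_congr rfl fun e he => ?_
  by_cases h : a i + e = E
  · rw [if_pos h, if_pos (by omega), coeff_monomial, if_pos (by omega)]
    have : a i + e - n = j := by omega
    rw [this]
  · rw [if_neg h]
    by_cases h' : n + 2 ≤ a i + e
    · rw [if_pos h', coeff_monomial, if_neg (by omega)]
    · rw [if_neg h', coeff_zero]

end Pool.Agent.T2h34.Circ
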