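import Mathlib
import Pool.Agent.T2h34.Circ.Star

set_option autoImplicit false
set_option linter.unusedSectionVars false

/-! The motions modulo a prime: linear algebra of the leading coefficients. -/

namespace Pool.Agent.T2h34.Circ

open Finset Polynomial

variable {p : ℕ} [hpF : Fact p.Prime]

theorem shifted_monic (r m : ℕ) :
    ((descPochhammer (ZMod p) m).comp (X - (r : (ZMod p)[X]))).Monic ∧
      ((descPochhammer (ZMod p) m).comp (X - (r : (ZMod p)[X]))).natDegree = m := by
  have h1 : (X - (r : (ZMod p)[X])) = X - C (r : ZMod p) := by simp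
  rw [h1]
  refine ⟨(monic_descPochhammer (ZMod p) m).comp_X_sub_C _, ?_⟩
  rw [natDegree_comp, natDegree_X_sub_C, mul_one, descPochhammer_natDegree]

/-- A linear functional which vanishes on `x (x - 1) ⋯ (x - j + 1)` for `r ≤ j ≤ r + M` vanishes on
all multiples of the first of these polynomials of degree at most `r + M`. -/
theorem functional_zero (Λ : (ZMod p)[X] →ₗ[ZMod p] ZMod p) (r M : ℕ)
    (h : ∀ j, r ≤ j → j ≤ r + M → Λ (descPochhammer (ZMod p) j) = 0) :
    ∀ m ≤ M, ∀ f : (ZMod p)[X], f.natDegree ≤ m → Λ (descPochhammer (ZMod p) r * f) = 0 := by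
  intro m
  induction m with
  | zero =>
    intro _ f hf
    rw [eq_C_of_natDegree_le_zero hf, mul_comm, ← smul_eq_C_mul, map_smul, h r le_rfl (by omega),
      smul_zero]
  | succ m ih =>
    intro hm f hf
    obtain ⟨hD1, hD2⟩ := shifted_monic (p := p) r (m + 1)
    set D := (descPochhammer (ZMod p) (m + 1)).comp (X - (r : (ZMod p)[X])) with hD
    set f' := f - C (f.coeff (m + 1)) * D with hf'
    have hdeg : f'.natDegree ≤ m := by
      rw [natDegree_le_iff_coeff_eq_zero]
      intro N hN
      rw [hf', coeff_sub, coeff_C_mul]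
      rcases Nat.lt_or_eq_of_le (Nat.succ_le_of_lt hN) with hlt | heq
      · rw [coeff_eq_zero_of_natDegree_lt (by omega : f.natDegree < N),
          coeff_eq_zero_of_natDegree_lt (by omega : D.natDegree < N)]
        ring
      · have h2 : D.coeff N = 1 := by
          have := hD1.coeff_natDegree
          rw [hD2] at this
          rw [← heq]
          exact this
        rw [h2, ← heq]
        simp
    have hsplit : f = f' + C (f.coeff (m + 1)) * D := by rw [hf']; ring
    rw [hsplit, mul_add, map_add, ih (by omega) f' hdeg, zero_add]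
    have : descPochhammer (ZMod p) r * (C (f.coeff (m + 1)) * D) =
        f.coeff (m + 1) • descPochhammer (ZMod p) (r + (m + 1)) := by
      rw [smul_eq_C_mul, ← descPochhammer_mul, ← hD]
      ring
    rw [this, map_smul, h _ (by omega) (by omega), smul_zero]

variable {ι : Type*} [Fintype ι]

/-- the functional `f ↦ ∑ μ_i (f(E) - f(E - a_i) - f(a_i))` -/
def Lam (a : ι → ℕ) (E : ℕ) (μ : ι → ZMod p) : (ZMod p)[X] →ₗ[ZMod p] ZMod p where
  toFun f := ∑ i, μ i * (f.eval (E : ZMod p) - f.eval ((E : ZMod p) - (a i : ZMod p)) -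
    f.eval (a i : ZMod p))
  map_add' f g := by
    rw [← sum_add_distrib]
    refine sum_congr rfl fun i _ => ?_
    simp only [eval_add]
    ring
  map_smul' r f := by
    rw [smul_eq_mul, mul_sum]
    refine sum_congr rfl fun i _ => ?_
    simp only [eval_smul, RingHom.id_apply, smul_eq_mul]
    ring

theorem lam_apply (a : ι → ℕ) (E : ℕ) (μ : ι → ZMod p) (f : (ZMod p)[X]) :
    Lam a E μ f = ∑ i, μ i * (f.eval (E : ZMod p) - f.eval ((E : ZMod p) - (a i : ZMod p)) -
      f.eval (a i : ZMod p)) := rfl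

theorem desc_eval (n j : ℕ) :
    (descPochhammer (ZMod p) j).eval (n : ZMod p) = (j.factorial : ZMod p) * (n.choose j : ZMod p) := by
  rw [descPochhammer_eval_eq_descFactorial, Nat.descFactorial_eq_factorial_mul_choose, Nat.cast_mul]

theorem lam_desc (a : ι → ℕ) (E : ℕ) (μ : ι → ZMod p) (h : ∀ i, μ i ≠ 0 → a i ≤ E) (j : ℕ) :
    Lam a E μ (descPochhammer (ZMod p) j) = (j.factorial : ZMod p) *
      ∑ i, μ i * ((E.choose j : ZMod p) - ((E - a i).choose j : ZMod p) -
        ((a i).choose j : ZMod p)) := by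
  rw [lam_apply, mul_sum]
  refine sum_congr rfl fun i _ => ?_
  by_cases hi : μ i = 0
  · rw [hi]; ring
  · rw [← Nat.cast_sub (h i hi), desc_eval, desc_eval, desc_eval]
    ring

theorem cast_ne_zero_of {n : ℕ} (h0 : 0 < n) (hn : n < p) : (n : ZMod p) ≠ 0 := by
  intro h
  rw [ZMod.natCast_eq_zero_iff] at h
  exact absurd (Nat.le_of_dvd h0 h) (by omega)

theorem cast_inj_of {m n : ℕ} (hm : m < p) (hn : n < p) (h : (m : ZMod p) = n) : m = n := by
  rw [ZMod.natCast_eq_natCast_iff'] at h
  rwa [Nat.mod_eq_of_lt hm, Nat.mod_eq_of_lt hn] at h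

/-- the case of weights below `p` -/
theorem end_small (hp2 : p ≠ 2) (a : ι → ℕ) (E : ℕ) (hE : E < p) (μ : ι → ZMod p)
    (ha : Function.Injective a)
    (h1 : ∀ i, μ i ≠ 0 → 1 ≤ a i ∧ 2 * a i ≤ E) (k : ℕ) (hk : {i | μ i ≠ 0}.ncard ≤ k)
    (hΛ : ∀ j, 1 ≤ j → j ≤ 2 * k → Lam a E μ (descPochhammer (ZMod p) j) = 0) :
    ∀ i, μ i = 0 := by
  classical
  set I : Finset ι := univ.filter fun i => μ i ≠ 0 with hI
  have hIk : I.card ≤ k := by
    rw [← Set.ncard_coe_finset]
    convert hk using 2
    ext i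
    simp [hI]
  by_contra hcon
  push Not at hcon
  obtain ⟨i0, hi0⟩ := hcon
  have hi0I : i0 ∈ I := by rw [hI, mem_filter]; exact ⟨mem_univ _, hi0⟩
  have hIpos : 0 < I.card := Finset.card_pos.2 ⟨i0, hi0I⟩
  set h : (ZMod p)[X] := (C (E : ZMod p) - X) * ∏ i ∈ I.erase i0,
    ((X - C (a i : ZMod p)) * (X - C ((E : ZMod p) - (a i : ZMod p)))) with hh
  have hdeg : h.natDegree ≤ 2 * k - 1 := by
    have e1 : (C (E : ZMod p) - X : (ZMod p)[X]).natDegree ≤ 1 := by
      refine (natDegree_sub_le _ _).trans ?_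
      rw [natDegree_C, natDegree_X]
      simp
    have e2 : (∏ i ∈ I.erase i0,
        ((X - C (a i : ZMod p)) * (X - C ((E : ZMod p) - (a i : ZMod p))))).natDegree ≤
        (I.card - 1) * 2 := by
      refine (natDegree_prod_le _ _).trans ?_
      rw [← card_erase_of_mem hi0I]
      refine Finset.sum_le_card_nsmul _ _ 2 fun i _ => ?_
      refine natDegree_mul_le.trans ?_
      rw [natDegree_X_sub_C, natDegree_X_sub_C]
    refine natDegree_mul_le.trans ?_
    omega
  have hz := functional_zero (Lam a E μ) 1 (2 * k - 1)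
    (fun j h1 h2 => hΛ j h1 (by omega)) (2 * k - 1) le_rfl h hdeg
  rw [descPochhammer_one, lam_apply] at hz
  have hev : ∀ x : ZMod p, (X * h).eval x = x * ((E : ZMod p) - x) *
      ∏ i ∈ I.erase i0, ((x - (a i : ZMod p)) * (x - ((E : ZMod p) - (a i : ZMod p)))) := by
    intro x
    rw [hh, eval_mul, eval_mul, eval_X, eval_sub, eval_C, eval_X, eval_prod]
    simp only [eval_mul, eval_sub, eval_X, eval_C]
    ring
  have hsym : ∀ x : ZMod p, (X * h).eval ((E : ZMod p) - x) = (X * h).eval x := by
    intro x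
    rw [hev, hev]
    have : ∏ i ∈ I.erase i0, (((E : ZMod p) - x - (a i : ZMod p)) *
        ((E : ZMod p) - x - ((E : ZMod p) - (a i : ZMod p)))) =
        ∏ i ∈ I.erase i0, ((x - (a i : ZMod p)) * (x - ((E : ZMod p) - (a i : ZMod p)))) :=
      prod_congr rfl fun i _ => by ring
    rw [this]
    ring
  have hE0 : (X * h).eval (E : ZMod p) = 0 := by
    rw [hev]; ring
  rw [Finset.sum_eq_single i0] at hz
  · rw [hsym, hE0] at hz
    have h2 : (2 : ZMod p) ≠ 0 := by
      have := cast_ne_zero_of (p := p) (n := 2) (by norm_num)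
        (lt_of_le_of_ne hpF.out.two_le (Ne.symm hp2))
      exact_mod_cast this
    have h3 : (X * h).eval (a i0 : ZMod p) = 0 := by
      have h4 : μ i0 * (-2 * (X * h).eval (a i0 : ZMod p)) = 0 := by
        rw [← hz]; ring
      rcases mul_eq_zero.1 h4 with h5 | h5
      · exact absurd h5 hi0
      · rcases mul_eq_zero.1 h5 with h6 | h6
        · exact absurd (neg_eq_zero.1 h6) h2
        · exact h6
    rw [hev] at h3
    obtain ⟨hb1, hb2⟩ := h1 i0 hi0
    rcases mul_eq_zero.1 h3 with h4 | h4
    · rcases mul_eq_zero.1 h4 with h5 | h5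
      · exact cast_ne_zero_of (by omega) (by omega) h5
      · rw [← Nat.cast_sub (by omega)] at h5
        exact cast_ne_zero_of (by omega) (by omega) h5
    · rw [prod_eq_zero_iff] at h4
      obtain ⟨i, hi, h5⟩ := h4
      rw [mem_erase, hI, mem_filter] at hi
      obtain ⟨hii, -, hi2⟩ := hi
      obtain ⟨hc1, hc2⟩ := h1 i hi2
      rcases mul_eq_zero.1 h5 with h6 | h6
      · have := cast_inj_of (by omega) (by omega) (sub_eq_zero.1 h6)
        exact hii (ha this.symm)
      · rw [← Nat.cast_sub (by omega)] at h6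
        have := cast_inj_of (by omega) (by omega) (sub_eq_zero.1 h6)
        exact hii (ha (by omega))
  · intro i _ hii
    by_cases hi : μ i = 0
    · rw [hi, zero_mul]
    · have hiI : i ∈ I.erase i0 := by
        rw [mem_erase, hI, mem_filter]
        exact ⟨hii, mem_univ _, hi⟩
      have h0 : (X * h).eval (a i : ZMod p) = 0 := by
        rw [hev]
        have : ∏ i' ∈ I.erase i0, (((a i : ZMod p) - (a i' : ZMod p)) *
            ((a i : ZMod p) - ((E : ZMod p) - (a i' : ZMod p)))) = 0 :=
          prod_eq_zero hiI (by ring)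
        rw [this, mul_zero]
      rw [hsym, hE0, h0]
      ring
  · intro h
    exact absurd (mem_univ _) h

/-- the case of weights at least `p` -/
theorem end_large (a : ι → ℕ) (d E : ℕ) (hE : p ≤ E) (hd : 2 * d < p) (had : ∀ i, a i ≤ d)
    (hcard : Fintype.card ι ≤ d) (hE2 : E < p + d)
    (μ : ι → ZMod p) (ha : Function.Injective a) (h1 : ∀ i, μ i ≠ 0 → E < p + a i)
    (hΛ : ∀ j, d + 1 ≤ j → j ≤ 2 * d → Lam a E μ (descPochhammer (ZMod p) j) = 0) :
    ∀ i, μ i = 0 := by
  classical
  by_contra hcon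
  push Not at hcon
  obtain ⟨i0, hi0⟩ := hcon
  have hcpos : 0 < Fintype.card ι := Fintype.card_pos_iff.2 ⟨i0⟩
  set h : (ZMod p)[X] := ∏ i ∈ univ.erase i0, (X - C ((E : ZMod p) - (a i : ZMod p))) with hh
  have hdeg : h.natDegree ≤ d - 1 := by
    refine (natDegree_prod_le _ _).trans ?_
    have : ∑ i ∈ univ.erase i0, (X - C ((E : ZMod p) - (a i : ZMod p)) : (ZMod p)[X]).natDegree =
        (univ.erase i0).card := by
      rw [Finset.card_eq_sum_ones]
      exact sum_congr rfl fun i _ => natDegree_X_sub_C _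
    rw [this, card_erase_of_mem (mem_univ _), card_univ]
    omega
  have hz := functional_zero (Lam a E μ) (d + 1) (d - 1)
    (fun j h1 h2 => hΛ j h1 (by omega)) (d - 1) le_rfl h hdeg
  rw [lam_apply] at hz
  have hsmall : ∀ n : ℕ, n ≤ d → (descPochhammer (ZMod p) (d + 1) * h).eval (n : ZMod p) = 0 := by
    intro n hn
    rw [eval_mul, desc_eval, Nat.choose_eq_zero_of_lt (by omega)]
    simp
  have hEz : (descPochhammer (ZMod p) (d + 1) * h).eval (E : ZMod p) = 0 := by
    have h2 : (E : ZMod p) = ((E - p : ℕ) : ZMod p) := by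
      rw [Nat.cast_sub hE, ZMod.natCast_self, sub_zero]
    rw [h2]
    exact hsmall _ (by omega)
  have haz : ∀ i, (descPochhammer (ZMod p) (d + 1) * h).eval (a i : ZMod p) = 0 :=
    fun i => hsmall _ (had i)
  have hEa : ∀ i, i ≠ i0 → (descPochhammer (ZMod p) (d + 1) * h).eval
      ((E : ZMod p) - (a i : ZMod p)) = 0 := by
    intro i hi
    rw [eval_mul, hh, eval_prod, prod_eq_zero (i := i) (mem_erase.2 ⟨hi, mem_univ _⟩), mul_zero]
    rw [eval_sub, eval_X, eval_C, sub_self]
  rw [Finset.sum_eq_single i0] at hz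
  · rw [hEz, haz] at hz
    have h3 : (descPochhammer (ZMod p) (d + 1) * h).eval ((E : ZMod p) - (a i0 : ZMod p)) = 0 := by
      have h4 : μ i0 * (descPochhammer (ZMod p) (d + 1) * h).eval
          ((E : ZMod p) - (a i0 : ZMod p)) = 0 := by
        have : μ i0 * (descPochhammer (ZMod p) (d + 1) * h).eval
          ((E : ZMod p) - (a i0 : ZMod p)) = - (μ i0 * (0 - (descPochhammer (ZMod p) (d + 1) * h).eval
          ((E : ZMod p) - (a i0 : ZMod p)) - 0)) := by ring
        rw [this, hz, neg_zero]
      rcases mul_eq_zero.1 h4 with h5 | h5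
      · exact absurd h5 hi0
      · exact h5
    have hb := h1 i0 hi0
    have hb' := had i0
    rw [← Nat.cast_sub (by omega), eval_mul] at h3
    rcases mul_eq_zero.1 h3 with h4 | h4
    · rw [descPochhammer_eval_eq_descFactorial, ZMod.natCast_eq_zero_iff] at h4
      have h5 : (E - a i0).descFactorial (d + 1) ∣ (E - a i0).factorial := by
        refine ⟨(E - a i0 - (d + 1)).factorial, ?_⟩
        rw [mul_comm]
        exact (Nat.factorial_mul_descFactorial (by omega)).symm
      have h6 := (Nat.Prime.dvd_factorial hpF.out).1 (h4.trans h5)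
      omega
    · rw [hh, eval_prod, prod_eq_zero_iff] at h4
      obtain ⟨i, hi, h5⟩ := h4
      rw [mem_erase] at hi
      have hci := had i
      rw [eval_sub, eval_X, eval_C, ← Nat.cast_sub (by omega)] at h5
      rw [sub_eq_zero, Nat.cast_sub (by omega), Nat.cast_sub (by omega), sub_right_inj] at h5
      exact hi.1 (ha (cast_inj_of (by omega) (by omega) h5).symm)
  · intro i _ hii
    rw [hEz, haz, hEa i hii]
    ring
  · intro h
    exact absurd (mem_univ _) h

end Pool.Agent.T2h34.Circ
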