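import Mathlib
import Pool.Agent.T2h34.Circ.End

set_option autoImplicit false
set_option linter.unusedSectionVars false

/-! The motions modulo a prime of circulant graphs placed on the moment curve. -/

namespace Pool.Agent.T2h34.Circ

open Finset Polynomial

variable {p : ℕ} [hpF : Fact p.Prime]

theorem card_le_of_zero_notMem (S : Finset (ZMod p)) (hS0 : (0 : ZMod p) ∉ S) : S.card + 1 ≤ p := by
  have h1 := Finset.card_insert_of_notMem hS0
  have h2 := Finset.card_le_univ (insert (0 : ZMod p) S)
  rw [ZMod.card] at h2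
  omega

theorem kernel {d : ℕ} (S : Finset (ZMod p)) (hS0 : (0 : ZMod p) ∉ S) (hS : 2 * d ≤ S.card)
    (c : Fin d → ℕ → ZMod p)
    (hF : ∀ g : ZMod p, ∀ s ∈ S, ∑ i : Fin d, ∑ e ∈ range p,
      c i e * (((g + s) ^ ((i : ℕ) + 1) - g ^ ((i : ℕ) + 1)) * ((g + s) ^ e - g ^ e)) = 0)
    (hT : ∀ i : Fin d, ∀ e ≤ (i : ℕ), c i e = 0) :
    ∀ i, ∀ e ∈ range p, c i e = 0 := by
  classical
  by_contra hcon
  push Not at hcon
  obtain ⟨i1, e1, he1, hc1⟩ := hcon
  have hSp := card_le_of_zero_notMem S hS0
  have hd0 : 0 < d := i1.pos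
  have hp3 : p ≠ 2 := by omega
  set a : Fin d → ℕ := fun i => (i : ℕ) + 1 with ha
  have hainj : Function.Injective a := by
    intro i j hij
    apply Fin.ext
    have : (i : ℕ) + 1 = (j : ℕ) + 1 := hij
    omega
  set P : Finset (Fin d × ℕ) := (univ ×ˢ range p).filter fun x => c x.1 x.2 ≠ 0 with hP
  have hPne : P.Nonempty := ⟨(i1, e1), by
    rw [hP, mem_filter, mem_product]; exact ⟨⟨mem_univ _, he1⟩, hc1⟩⟩
  obtain ⟨⟨i0, e0⟩, hm0, hmax⟩ := P.exists_max_image (fun x => a x.1 + x.2) hPne
  set E := a i0 + e0 with hE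
  rw [hP, mem_filter, mem_product, mem_range] at hm0
  obtain ⟨⟨-, he0⟩, hc0⟩ := hm0
  simp only at he0 hc0
  have hEmax : ∀ i, ∀ e ∈ range p, c i e ≠ 0 → a i + e ≤ E := by
    intro i e he hce
    exact hmax (i, e) (by rw [hP, mem_filter, mem_product]; exact ⟨⟨mem_univ _, he⟩, hce⟩)
  set μ : Fin d → ZMod p := fun i => if a i ≤ E ∧ E - a i < p then c i (E - a i) else 0 with hμ
  have hμ1 : ∀ i, μ i ≠ 0 → a i ≤ E ∧ E - a i < p ∧ a i ≤ E - a i := by
    intro i hi
    simp only [hμ] at hi
    split_ifs at hi with h
    · refine ⟨h.1, h.2, ?_⟩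
      by_contra hlt
      refine hi (hT i _ ?_)
      have : a i = (i : ℕ) + 1 := rfl
      omega
    · exact absurd rfl hi
  have hstar : ∀ j, 2 ≤ j → j ≤ 2 * d → j ≤ E → E < p + j →
      ∑ i, μ i * ((E.choose j : ZMod p) - ((E - a i).choose j : ZMod p) -
        ((a i).choose j : ZMod p)) = 0 := by
    intro j hj2 hjd hjE hEp
    have h1 := star a c S hS0 hF E hEmax j hj2 (by omega) hjE hEp (by omega)
    rw [← h1]
    refine sum_congr rfl fun i _ => ?_
    simp only [hμ]
    split_ifs with h
    · rw [Finset.sum_eq_single (E - a i)]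
      · rw [if_pos (by omega)]
        unfold hc
        rw [if_neg (by omega), add_zero, Nat.add_sub_cancel' h.1]
      · intro e _ he
        rw [if_neg (by omega)]
      · intro h'
        exact absurd (mem_range.2 h.2) h'
    · rw [zero_mul]
      symm
      refine sum_eq_zero fun e he => ?_
      rw [mem_range] at he
      rw [if_neg]
      intro h'
      exact h ⟨by omega, by omega⟩
  have hμ0 : ∀ i, μ i = 0 := by
    by_cases hEp : E < p
    · refine end_small hp3 a E hEp μ hainj ?_ d ?_ ?_
      · intro i hi
        obtain ⟨h1, h2, h3⟩ := hμ1 i hi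
        have : a i = (i : ℕ) + 1 := rfl
        exact ⟨by omega, by omega⟩
      · calc {i | μ i ≠ 0}.ncard ≤ (Set.univ : Set (Fin d)).ncard :=
              Set.ncard_le_ncard (Set.subset_univ _)
          _ = d := by rw [Set.ncard_univ, Nat.card_eq_fintype_card, Fintype.card_fin]
      · intro j hj1 hjd
        rw [lam_desc a E μ (fun i hi => (hμ1 i hi).1)]
        rcases Nat.lt_or_ge 1 j with hj2 | hj2
        · by_cases hjE : j ≤ E
          · rw [hstar j hj2 hjd hjE (by omega), mul_zero]
          · have : ∑ i, μ i * ((E.choose j : ZMod p) - ((E - a i).choose j : ZMod p) -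
                ((a i).choose j : ZMod p)) = 0 := by
              refine sum_eq_zero fun i _ => ?_
              by_cases hi : μ i = 0
              · rw [hi, zero_mul]
              · have := (hμ1 i hi).1
                rw [Nat.choose_eq_zero_of_lt (by omega), Nat.choose_eq_zero_of_lt (by omega),
                  Nat.choose_eq_zero_of_lt (by omega)]
                simp
            rw [this, mul_zero]
        · have hj : j = 1 := by omega
          subst hj
          have : ∑ i, μ i * ((E.choose 1 : ZMod p) - ((E - a i).choose 1 : ZMod p) -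
                ((a i).choose 1 : ZMod p)) = 0 := by
            refine sum_eq_zero fun i _ => ?_
            by_cases hi : μ i = 0
            · rw [hi, zero_mul]
            · rw [Nat.choose_one_right, Nat.choose_one_right, Nat.choose_one_right,
                Nat.cast_sub (hμ1 i hi).1]
              ring
          rw [this, mul_zero]
    · have hai0 : a i0 ≤ d := i0.2
      refine end_large a d E (by omega) (by omega) (fun i => i.2) (by rw [Fintype.card_fin])
        (by omega) μ hainj ?_ ?_
      · intro i hi
        obtain ⟨h1, h2, h3⟩ := hμ1 i hi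
        omega
      · intro j hj1 hj2
        rw [lam_desc a E μ (fun i hi => (hμ1 i hi).1), hstar j (by omega) hj2 (by omega)
          (by omega), mul_zero]
  have := hμ0 i0
  simp only [hμ] at this
  rw [if_pos ⟨by omega, by omega⟩, hE, Nat.add_sub_cancel_left] at this
  exact hc0 this

end Pool.Agent.T2h34.Circ
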