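import Mathlib

set_option autoImplicit false

/-! Integer matrices whose reduction modulo a prime is injective. -/

namespace Pool.Agent.T2h34.Circ

open Matrix

/-- If the reduction modulo `p` of an integer matrix has trivial kernel, then so has the real
matrix. -/
theorem inj_lift {α β : Type*} [Fintype α] [Fintype β] [DecidableEq α] [DecidableEq β]
    {p : ℕ} [Fact p.Prime] (A : Matrix β α ℤ)
    (h : ∀ v : α → ZMod p, (A.map (Int.cast : ℤ → ZMod p)) *ᵥ v = 0 → v = 0) :
    ∀ v : α → ℝ, (A.map (Int.cast : ℤ → ℝ)) *ᵥ v = 0 → v = 0 := by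
  set Ap := A.map (Int.cast : ℤ → ZMod p) with hAp
  have hk : LinearMap.ker Ap.mulVecLin = ⊥ := by
    rw [LinearMap.ker_eq_bot']
    intro v hv
    exact h v hv
  obtain ⟨g, hg⟩ := Ap.mulVecLin.exists_leftInverse_of_injective hk
  set B := LinearMap.toMatrix' g with hB
  have hBA : B * Ap = 1 := by
    have : LinearMap.toMatrix' (g ∘ₗ Ap.mulVecLin) = 1 := by
      rw [hg, LinearMap.toMatrix'_id]
    rw [LinearMap.toMatrix'_comp] at this
    rw [hB]
    convert this using 2
    exact (LinearMap.toMatrix'_toLin' Ap).symm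
  set B' : Matrix α β ℤ := B.map fun x => (x.val : ℤ) with hB'
  have hB'p : B'.map (Int.cast : ℤ → ZMod p) = B := by
    ext i j
    simp [hB', Matrix.map_apply]
  have hdet : (B' * A).det ≠ 0 := by
    intro h0
    have h1 : ((B' * A).map (Int.cast : ℤ → ZMod p)).det = 0 := by
      have := (Int.castRingHom (ZMod p)).map_det (B' * A)
      rw [h0, map_zero] at this
      exact this.symm
    have h2 : (B' * A).map (Int.cast : ℤ → ZMod p) = 1 := by
      have := Matrix.map_mul (L := B') (M := A) (f := Int.castRingHom (ZMod p))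
      calc (B' * A).map (Int.cast : ℤ → ZMod p)
          = B'.map (Int.castRingHom (ZMod p)) * A.map (Int.castRingHom (ZMod p)) := this
        _ = B * Ap := by
            congr 1
        _ = 1 := hBA
    rw [h2, det_one] at h1
    exact one_ne_zero h1
  intro v hv
  have hdetR : ((B' * A).map (Int.cast : ℤ → ℝ)).det ≠ 0 := by
    have := (Int.castRingHom ℝ).map_det (B' * A)
    have h3 : ((B' * A).map (Int.cast : ℤ → ℝ)).det = ((B' * A).det : ℝ) := this.symm
    rw [h3]
    exact_mod_cast hdet
  refine Matrix.eq_zero_of_mulVec_eq_zero hdetR ?_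
  have h4 : (B' * A).map (Int.cast : ℤ → ℝ) = B'.map (Int.cast : ℤ → ℝ) * A.map (Int.cast : ℤ → ℝ) :=
    Matrix.map_mul (L := B') (M := A) (f := Int.castRingHom ℝ)
  rw [h4, ← Matrix.mulVec_mulVec, hv, Matrix.mulVec_zero]

/-- the version with additional linear conditions modulo `p`: then finitely many linear conditions,
as many as modulo `p`, make the real kernel trivial. -/
theorem inj_lift' {α β κ : Type*} [Fintype α] [Fintype β] [Fintype κ] [DecidableEq α]
    [DecidableEq β] [DecidableEq κ] {p : ℕ} [Fact p.Prime] (A : Matrix β α ℤ)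
    (L : (α → ZMod p) →ₗ[ZMod p] (κ → ZMod p))
    (h : ∀ v : α → ZMod p, (A.map (Int.cast : ℤ → ZMod p)) *ᵥ v = 0 → L v = 0 → v = 0) :
    ∃ L' : Matrix κ α ℝ, ∀ v : α → ℝ, (A.map (Int.cast : ℤ → ℝ)) *ᵥ v = 0 → L' *ᵥ v = 0 →
      v = 0 := by
  set Lm := LinearMap.toMatrix' L with hLm
  set Lz : Matrix κ α ℤ := Lm.map fun x => (x.val : ℤ) with hLz
  have hLzp : Lz.map (Int.cast : ℤ → ZMod p) = Lm := by
    ext i j
    simp [hLz, Matrix.map_apply]
  set A' : Matrix (β ⊕ κ) α ℤ := Matrix.fromRows A Lz with hA'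
  have h1 := inj_lift (p := p) A' (by
    intro v hv
    rw [hA', Matrix.fromRows_map] at hv
    rw [Matrix.fromRows_mulVec] at hv
    refine h v ?_ ?_
    · funext i
      exact congrFun hv (Sum.inl i)
    · have : Lm *ᵥ v = 0 := by
        rw [← hLzp]
        funext i
        exact congrFun hv (Sum.inr i)
      rw [hLm] at this
      rwa [LinearMap.toMatrix'_mulVec] at this)
  refine ⟨Lz.map (Int.cast : ℤ → ℝ), fun v hv hv' => h1 v ?_⟩
  rw [hA', Matrix.fromRows_map, Matrix.fromRows_mulVec]
  funext i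
  rcases i with i | i
  · exact congrFun hv i
  · exact congrFun hv' i

end Pool.Agent.T2h34.Circ
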