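import Mathlib
import Pool.Agent.T2h34.Circ.Kernel
import Pool.Agent.T2h34.Circ.Lift
import Pool.Agent.H789R5.RF.Rank

set_option autoImplicit false
set_option linter.unusedSectionVars false

/-! The rigidity matrices of circulant graphs. -/

namespace Pool.Agent.T2h34.Circ

open Finset Matrix Pool.Agent.H283R2.DR Pool.Agent.H789R5

/-! ### Invariance under isomorphisms -/

section Iso

variable {V W : Type} [Fintype V] [Fintype W] {d : ℕ}

theorem mo_iso {G : SimpleGraph V} {H : SimpleGraph W} (φ : G ≃g H) (q : W → Fin d → ℝ) :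
    mo G (fun v => q (φ v)) = mo H q := by
  have h : (Mot H q).map ((LinearEquiv.funCongrLeft ℝ (Fin d → ℝ) φ.toEquiv :
      (W → Fin d → ℝ) ≃ₗ[ℝ] (V → Fin d → ℝ)) : (W → Fin d → ℝ) →ₗ[ℝ] (V → Fin d → ℝ)) =
      Mot G (fun v => q (φ v)) := by
    ext m
    rw [mem_mot]
    constructor
    · rintro ⟨m', hm', rfl⟩
      intro u v huv
      exact (mem_mot H q m').1 hm' (φ u) (φ v) (φ.map_rel_iff.2 huv)
    · intro hm
      refine ⟨fun w => m (φ.symm w), ?_, ?_⟩
      · show _ ∈ Mot H q
        rw [mem_mot]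
        intro u v huv
        have := hm (φ.symm u) (φ.symm v) (φ.symm.map_rel_iff.2 huv)
        simpa using this
      · funext v
        show m (φ.symm (φ v)) = m v
        rw [RelIso.symm_apply_apply]
  unfold mo
  rw [← h]
  exact LinearEquiv.finrank_map_eq _ _

theorem mo_mg_iso {G : SimpleGraph V} {H : SimpleGraph W} (φ : G ≃g H) {q : V → Fin d → ℝ}
    {q' : W → Fin d → ℝ} (hq : MG q) (hq' : MG q') : mo G q = mo H q' := by
  apply le_antisymm
  · rw [← mo_iso φ q']
    exact hq.min G _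
  · rw [← mo_iso φ.symm q]
    exact hq'.min H _

theorem genRank_iso {G : SimpleGraph V} {H : SimpleGraph W} (φ : G ≃g H) :
    genRank d G = genRank d H := by
  obtain ⟨q, hq⟩ := exists_mg V d
  obtain ⟨q', hq'⟩ := exists_mg W d
  have h1 := genRank_add hq G
  have h2 := genRank_add hq' H
  have h3 := mo_mg_iso φ hq hq'
  have h4 : Fintype.card V = Fintype.card W := Fintype.card_congr φ.toEquiv
  rw [h4] at h1
  omega

end Iso

/-! ### The matrix -/

variable {p : ℕ} [hpF : Fact p.Prime] {d : ℕ}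

/-- The rigidity matrix of the circulant graph: row `(g, t)` is the edge from `g` to `g + t`. -/
def RM {R : Type*} [CommRing R] (T : Finset (ZMod p)) (q : ZMod p → Fin d → R) :
    Matrix (ZMod p × T) (ZMod p × Fin d) R :=
  fun r c => (q (r.1 + r.2) c.2 - q r.1 c.2) *
    ((if c.1 = r.1 + r.2 then 1 else 0) - (if c.1 = r.1 then 1 else 0))

theorem RM_mulVec {R : Type*} [CommRing R] (T : Finset (ZMod p)) (q : ZMod p → Fin d → R)
    (v : ZMod p × Fin d → R) (g : ZMod p) (t : T) :
    (RM T q *ᵥ v) (g, t) = ∑ i, (q (g + t) i - q g i) * (v (g + t, i) - v (g, i)) := by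
  show ∑ c : ZMod p × Fin d, RM T q (g, t) c * v c = _
  rw [Fintype.sum_prod_type_right]
  refine sum_congr rfl fun i _ => ?_
  have : ∀ x : ZMod p, RM T q (g, t) (x, i) * v (x, i) =
      (if x = g + t then (q (g + t) i - q g i) * v (x, i) else 0) -
      (if x = g then (q (g + t) i - q g i) * v (x, i) else 0) := by
    intro x
    unfold RM
    simp only
    split_ifs <;> ring
  rw [sum_congr rfl fun x _ => this x, sum_sub_distrib, sum_ite_eq', sum_ite_eq',
    if_pos (mem_univ _), if_pos (mem_univ _)]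
  ring

theorem RM_transpose_mulVec {R : Type*} [CommRing R] (T : Finset (ZMod p))
    (q : ZMod p → Fin d → R) (w : ZMod p × T → R) (g : ZMod p) (i : Fin d) :
    ((RM T q)ᵀ *ᵥ w) (g, i) = ∑ t : T, (w (g - t, t) * (q g i - q (g - t) i) -
      w (g, t) * (q (g + t) i - q g i)) := by
  show ∑ r : ZMod p × T, RM T q r (g, i) * w r = _
  rw [Fintype.sum_prod_type_right]
  refine sum_congr rfl fun t _ => ?_
  have : ∀ x : ZMod p, RM T q (x, t) (g, i) * w (x, t) =
      (if x = g - t then (q (x + t) i - q x i) * w (x, t) else 0) -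
      (if x = g then (q (x + t) i - q x i) * w (x, t) else 0) := by
    intro x
    unfold RM
    simp only
    have e1 : (g = x + (t : ZMod p)) ↔ (x = g - t) := by
      constructor
      · rintro rfl; ring
      · rintro rfl; ring
    have e2 : (g = x) ↔ (x = g) := eq_comm
    simp only [e1, e2]
    split_ifs <;> ring
  rw [sum_congr rfl fun x _ => this x, sum_sub_distrib, sum_ite_eq', sum_ite_eq',
    if_pos (mem_univ _), if_pos (mem_univ _), sub_add_cancel]
  ring

theorem RM_map {R R' : Type*} [CommRing R] [CommRing R'] (T : Finset (ZMod p))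
    (q : ZMod p → Fin d → R) (f : R →+* R') :
    (RM T q).map f = RM T (fun g i => f (q g i)) := by
  ext r c
  simp only [Matrix.map_apply, RM, map_mul, map_sub]
  split_ifs <;> simp

/-! ### Coefficients of functions -/

/-- the coefficients of the polynomial of degree less than `p` which represents a function -/
noncomputable def cf : (ZMod p → ZMod p) →ₗ[ZMod p] (ℕ → ZMod p) where
  toFun f e := (Lagrange.interpolate univ (id : ZMod p → ZMod p) f).coeff e
  map_add' f g := by
    funext e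
    rw [map_add, Polynomial.coeff_add]
    rfl
  map_smul' r f := by
    funext e
    rw [map_smul, Polynomial.coeff_smul]
    rfl

theorem cf_spec (f : ZMod p → ZMod p) (g : ZMod p) : f g = ∑ e ∈ range p, cf f e * g ^ e := by
  have h1 := Lagrange.eval_interpolate_at_node (s := univ) (v := (id : ZMod p → ZMod p)) (i := g) f
    (fun _ _ _ _ h => h) (mem_univ _)
  rw [id] at h1
  rw [← h1]
  have h2 := Lagrange.degree_interpolate_lt (s := univ) (v := (id : ZMod p → ZMod p)) f
    (fun _ _ _ _ h => h)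
  rw [card_univ, ZMod.card] at h2
  rw [Polynomial.eval_eq_sum_range' (n := p)]
  · rfl
  · rcases eq_or_ne (Lagrange.interpolate univ (id : ZMod p → ZMod p) f) 0 with h0 | h0
    · rw [h0, Polynomial.natDegree_zero]
      exact hpF.out.pos
    · exact (Polynomial.natDegree_lt_iff_degree_lt h0).2 h2

theorem kernel' {d : ℕ} (S : Finset (ZMod p)) (hS0 : (0 : ZMod p) ∉ S) (hS : 2 * d ≤ S.card)
    (m : Fin d → ZMod p → ZMod p)
    (hF : ∀ g : ZMod p, ∀ s ∈ S, ∑ i : Fin d,
      ((g + s) ^ ((i : ℕ) + 1) - g ^ ((i : ℕ) + 1)) * (m i (g + s) - m i g) = 0)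
    (hT : ∀ i : Fin d, ∀ e ≤ (i : ℕ), cf (m i) e = 0) : m = 0 := by
  have h := kernel S hS0 hS (fun i e => cf (m i) e) (by
    intro g s hs
    rw [← hF g s hs]
    refine sum_congr rfl fun i _ => ?_
    rw [cf_spec (m i) (g + s), cf_spec (m i) g, ← sum_sub_distrib, mul_sum]
    refine sum_congr rfl fun e _ => ?_
    ring) hT
  funext i g
  rw [cf_spec (m i) g]
  refine sum_eq_zero fun e he => ?_
  rw [show cf (m i) e = 0 from h i e he, zero_mul]

/-- the moment curve -/
def mc (d : ℕ) (R : Type*) [CommRing R] (g : ZMod p) (i : Fin d) : R := ((g.val : ℕ) : R) ^ ((i : ℕ) + 1)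

theorem mc_zmod (g : ZMod p) (i : Fin d) : mc d (ZMod p) g i = g ^ ((i : ℕ) + 1) := by
  unfold mc
  rw [ZMod.natCast_zmod_val]

theorem mc_map {R R' : Type*} [CommRing R] [CommRing R'] (f : R →+* R') :
    (fun (g : ZMod p) (i : Fin d) => f (mc d R g i)) = mc d R' := by
  funext g i
  unfold mc
  rw [map_pow, map_natCast]

/-- the conditions on coefficients -/
noncomputable def LL (d : ℕ) :
    (ZMod p × Fin d → ZMod p) →ₗ[ZMod p] ((Σ i : Fin d, Fin ((i : ℕ) + 1)) → ZMod p) where
  toFun v x := cf (fun g => v (g, x.1)) x.2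
  map_add' v w := by
    funext x
    have := cf.map_add (fun g => v (g, x.1)) (fun g => w (g, x.1))
    exact congrFun this x.2
  map_smul' r v := by
    funext x
    have := cf.map_smul r (fun g => v (g, x.1))
    exact congrFun this x.2

theorem card_sigma (d : ℕ) : Fintype.card (Σ i : Fin d, Fin ((i : ℕ) + 1)) = d * (d + 1) / 2 := by
  rw [Fintype.card_sigma]
  simp only [Fintype.card_fin]
  rw [Fin.sum_univ_eq_sum_range (fun i => i + 1) d]
  have h : ∀ n : ℕ, ∑ i ∈ range n, (i + 1) = n * (n + 1) / 2 := by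
    intro n
    have := Finset.sum_range_id (n + 1)
    rw [Finset.sum_range_succ'] at this
    simp only [add_zero] at this
    rw [this, Nat.add_sub_cancel, mul_comm]
  exact h d

theorem RM_kernel_zmod (S : Finset (ZMod p)) (hS0 : (0 : ZMod p) ∉ S) (hS : 2 * d ≤ S.card)
    (v : ZMod p × Fin d → ZMod p) (h1 : RM S (mc d (ZMod p)) *ᵥ v = 0) (h2 : LL d v = 0) :
    v = 0 := by
  have := kernel' S hS0 hS (fun i g => v (g, i)) (by
    intro g s hs
    have := congrFun h1 (g, ⟨s, hs⟩)
    rw [RM_mulVec] at this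
    simp only [mc_zmod] at this
    exact this) (by
    intro i e he
    have := congrFun h2 ⟨i, ⟨e, by omega⟩⟩
    exact this)
  funext x
  exact congrFun (congrFun this x.2) x.1

/-- **Few motions.** -/
theorem mo_le_of_card {G : SimpleGraph (ZMod p)} (S : Finset (ZMod p)) (hS0 : (0 : ZMod p) ∉ S)
    (hS : 2 * d ≤ S.card) (hG : ∀ g, ∀ s ∈ S, G.Adj g (g + s)) :
    ∃ q : ZMod p → Fin d → ℝ, mo G q ≤ d * (d + 1) / 2 := by
  classical
  obtain ⟨L', hL'⟩ := inj_lift' (p := p) (RM S (mc d ℤ)) (LL d) (by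
    intro v h1 h2
    refine RM_kernel_zmod S hS0 hS v ?_ h2
    have := RM_map S (mc d ℤ : ZMod p → Fin d → ℤ) (Int.castRingHom (ZMod p))
    rw [mc_map] at this
    rw [← this]
    exact h1)
  refine ⟨mc d ℝ, ?_⟩
  have hmap : (RM S (mc d ℤ : ZMod p → Fin d → ℤ)).map (Int.cast : ℤ → ℝ) = RM S (mc d ℝ) := by
    have := RM_map S (mc d ℤ : ZMod p → Fin d → ℤ) (Int.castRingHom ℝ)
    rw [mc_map] at this
    exact this
  rw [hmap] at hL'
  rw [← card_sigma d]
  have hfin : Module.finrank ℝ ((Σ i : Fin d, Fin ((i : ℕ) + 1)) → ℝ) =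
      Fintype.card (Σ i : Fin d, Fin ((i : ℕ) + 1)) := Module.finrank_fintype_fun_eq_card ℝ
  rw [← hfin]
  set Φ : Mot G (mc d ℝ) →ₗ[ℝ] ((Σ i : Fin d, Fin ((i : ℕ) + 1)) → ℝ) :=
    L'.mulVecLin ∘ₗ ((LinearEquiv.curry ℝ ℝ (ZMod p) (Fin d)).symm : (ZMod p → Fin d → ℝ) →ₗ[ℝ]
      (ZMod p × Fin d → ℝ)) ∘ₗ (Mot G (mc d ℝ)).subtype with hΦ
  refine LinearMap.finrank_le_finrank_of_injective (f := Φ) ?_
  rw [← LinearMap.ker_eq_bot, LinearMap.ker_eq_bot']
  rintro ⟨m, hm⟩ hz
  rw [mem_mot] at hm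
  have h0 := hL' (fun x => m x.1 x.2) (by
    funext x
    obtain ⟨g, s⟩ := x
    rw [RM_mulVec]
    have := hm (g + s) g (hG g s s.2).symm
    rw [dotProduct] at this
    exact this) hz
  apply Subtype.ext
  funext g i
  exact congrFun h0 (g, i)

end Pool.Agent.T2h34.Circ
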