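import Mathlib

set_option autoImplicit false
set_option linter.unusedSectionVars false

/-! The nullity of the matrix of a stress of a circulant graph modulo a prime. -/

namespace Pool.Agent.T2h34.Circ

open Finset Polynomial

variable {p : ℕ} [hpF : Fact p.Prime]

/-- the Laplace operator of the weights `W_s(g)` on the pairs `(g, g + s)` -/
def Lap (S : Finset (ZMod p)) (W : ZMod p → (ZMod p)[X]) :
    (ZMod p → ZMod p) →ₗ[ZMod p] (ZMod p → ZMod p) where
  toFun z g := ∑ s ∈ S, (W s).eval g * (z (g + s) - z g)
  map_add' z z' := by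
    funext g
    simp only [Pi.add_apply]
    rw [← sum_add_distrib]
    exact sum_congr rfl fun s _ => by ring
  map_smul' r z := by
    funext g
    simp only [Pi.smul_apply, smul_eq_mul, RingHom.id_apply]
    rw [mul_sum]
    exact sum_congr rfl fun s _ => by ring

/-- moments of the coefficients -/
def mom (S : Finset (ZMod p)) (W : ZMod p → (ZMod p)[X]) (n j : ℕ) : ZMod p :=
  ∑ s ∈ S, s ^ j * (W s).coeff n

theorem exists_mom (S : Finset (ZMod p)) (hS0 : (0 : ZMod p) ∉ S) (W : ZMod p → (ZMod p)[X]) (n : ℕ)
    (hex : ∃ s ∈ S, (W s).coeff n ≠ 0) : ∃ j, 1 ≤ j ∧ j ≤ S.card ∧ mom S W n j ≠ 0 := by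
  by_contra hcon
  push Not at hcon
  obtain ⟨s0, hs0, hw⟩ := hex
  have key : ∀ f : (ZMod p)[X], f.natDegree < S.card → ∑ s ∈ S, s * f.eval s * (W s).coeff n = 0 := by
    intro f hf
    have h1 : ∀ s : ZMod p, s * f.eval s * (W s).coeff n =
        ∑ i ∈ range S.card, f.coeff i * (s ^ (i + 1) * (W s).coeff n) := by
      intro s
      rw [eval_eq_sum_range' hf, mul_sum, sum_mul]
      exact sum_congr rfl fun i _ => by ring
    rw [sum_congr rfl fun s _ => h1 s, sum_comm]
    refine sum_eq_zero fun i hi => ?_
    rw [mem_range] at hi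
    rw [← mul_sum, show ∑ s ∈ S, s ^ (i + 1) * (W s).coeff n = mom S W n (i + 1) from rfl,
      hcon (i + 1) (by omega) (by omega), mul_zero]
  set f : (ZMod p)[X] := ∏ s ∈ S.erase s0, (X - C s) with hf
  have hdeg : f.natDegree < S.card := by
    rw [hf, natDegree_prod_of_monic _ _ fun s _ => monic_X_sub_C s]
    simp only [natDegree_X_sub_C, sum_const, smul_eq_mul, mul_one]
    rw [card_erase_of_mem hs0]
    have := Finset.card_pos.2 ⟨s0, hs0⟩
    omega
  have h2 := key f hdeg
  rw [Finset.sum_eq_single s0] at h2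
  · rcases mul_eq_zero.1 h2 with h3 | h3
    · rcases mul_eq_zero.1 h3 with h4 | h4
      · exact hS0 (h4 ▸ hs0)
      · rw [hf, eval_prod, prod_eq_zero_iff] at h4
        obtain ⟨s, hs, h5⟩ := h4
        rw [eval_sub, eval_X, eval_C, sub_eq_zero] at h5
        exact (mem_erase.1 hs).1 h5.symm
    · exact hw h3
  · intro s hs hss
    rw [hf, eval_prod, prod_eq_zero (mem_erase.2 ⟨hss, hs⟩) (by simp)]
    ring
  · intro h
    exact absurd hs0 h

/-- the Laplace operator applied to the monomial of degree `e`, as a polynomial -/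
noncomputable def Le (S : Finset (ZMod p)) (W : ZMod p → (ZMod p)[X]) (e : ℕ) : (ZMod p)[X] :=
  ∑ s ∈ S, W s * ((X + C s) ^ e - X ^ e)

theorem Le_eval (S : Finset (ZMod p)) (W : ZMod p → (ZMod p)[X]) (e : ℕ) (g : ZMod p) :
    (Le S W e).eval g = Lap S W (fun x => x ^ e) g := by
  unfold Le
  rw [eval_finsetSum]
  refine sum_congr rfl fun s _ => ?_
  rw [eval_mul, eval_sub, eval_pow, eval_pow, eval_add, eval_X, eval_C]

theorem Le_coeff (S : Finset (ZMod p)) (W : ZMod p → (ZMod p)[X]) (e N : ℕ) :
    (Le S W e).coeff N = ∑ x ∈ antidiagonal N,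
      if x.2 < e then (e.choose (e - x.2) : ZMod p) * mom S W x.1 (e - x.2) else 0 := by
  unfold Le
  rw [finsetSum_coeff]
  have h1 : ∀ s, (W s * ((X + C s) ^ e - X ^ e)).coeff N = ∑ x ∈ antidiagonal N,
      if x.2 < e then (e.choose (e - x.2) : ZMod p) * (s ^ (e - x.2) * (W s).coeff x.1) else 0 := by
    intro s
    rw [coeff_mul]
    refine sum_congr rfl fun x _ => ?_
    rw [coeff_sub, coeff_X_add_C_pow, coeff_X_pow]
    rcases lt_trichotomy x.2 e with h | h | h
    · rw [if_neg (by omega), if_pos h, Nat.choose_symm h.le]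
      ring
    · subst h
      simp
    · rw [if_neg (by omega), if_neg (by omega), Nat.choose_eq_zero_of_lt h]
      simp
  rw [sum_congr rfl fun s _ => h1 s, sum_comm]
  refine sum_congr rfl fun x _ => ?_
  split_ifs
  · unfold mom
    rw [mul_sum]
  · exact sum_const_zero

theorem lap_sum (S : Finset (ZMod p)) (W : ZMod p → (ZMod p)[X]) (Q : Finset ℕ) (z : ℕ → ZMod p)
    (g : ZMod p) : Lap S W (fun x => ∑ e ∈ Q, z e * x ^ e) g =
      (∑ e ∈ Q, C (z e) * Le S W e).eval g := by
  have h1 : (fun x : ZMod p => ∑ e ∈ Q, z e * x ^ e) = ∑ e ∈ Q, z e • (fun x : ZMod p => x ^ e) := by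
    funext x
    rw [Finset.sum_apply]
    rfl
  rw [h1, map_sum, Finset.sum_apply, eval_finsetSum]
  refine sum_congr rfl fun e _ => ?_
  rw [map_smul, Pi.smul_apply, eval_mul, eval_C, Le_eval, smul_eq_mul]

theorem nullity_le (S : Finset (ZMod p)) (hS0 : (0 : ZMod p) ∉ S) (W : ZMod p → (ZMod p)[X])
    (δ : ℕ) (hS : S.card < p) (hdeg : ∀ s ∈ S, (W s).natDegree ≤ δ)
    (hex : ∃ s ∈ S, (W s).coeff δ ≠ 0) :
    Module.finrank (ZMod p) (LinearMap.ker (Lap S W)) ≤ max S.card δ := by
  classical
  have hp0 := hpF.out.pos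
  -- the least drop
  have hmom0 : ∀ n j, δ < n → mom S W n j = 0 := by
    intro n j hn
    unfold mom
    refine sum_eq_zero fun s hs => ?_
    rw [coeff_eq_zero_of_natDegree_lt (lt_of_le_of_lt (hdeg s hs) hn), mul_zero]
  have hρex : ∃ ρ, ∃ n j, 1 ≤ j ∧ n ≤ δ ∧ n + ρ = j + δ ∧ mom S W n j ≠ 0 := by
    obtain ⟨j, h1, h2, h3⟩ := exists_mom S hS0 W δ hex
    exact ⟨j, δ, j, h1, le_rfl, by omega, h3⟩
  set ρ := Nat.find hρex with hρ
  have hρspec := Nat.find_spec hρex
  rw [← hρ] at hρspec
  have hρmin : ∀ n j, 1 ≤ j → n ≤ δ → j + δ < n + ρ → mom S W n j = 0 := by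
    intro n j h1 h2 h3
    by_contra h4
    exact Nat.find_min hρex (m := j + δ - n) (by omega) ⟨n, j, h1, h2, by omega, h4⟩
  have hρS : ρ ≤ S.card := by
    obtain ⟨j, h1, h2, h3⟩ := exists_mom S hS0 W δ hex
    exact (Nat.find_min' hρex ⟨δ, j, h1, le_rfl, by omega, h3⟩).trans h2
  set β : ℕ → ZMod p := fun j => if ρ ≤ δ + j then mom S W (δ + j - ρ) j else 0 with hβ
  set P : ℕ → ZMod p := fun e => ∑ j ∈ Icc 1 ρ, (e.choose j : ZMod p) * β j with hP
  -- coefficients
  have hhigh : ∀ e N, e + δ < N + ρ → (Le S W e).coeff N = 0 := by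
    intro e N h
    rw [Le_coeff]
    refine sum_eq_zero fun x hx => ?_
    rw [HasAntidiagonal.mem_antidiagonal] at hx
    split_ifs with h1
    · by_cases h2 : x.1 ≤ δ
      · rw [hρmin x.1 (e - x.2) (by omega) h2 (by omega), mul_zero]
      · rw [hmom0 x.1 _ (by omega), mul_zero]
    · rfl
  have hlead : ∀ e N, N + ρ = e + δ → (Le S W e).coeff N = P e := by
    intro e N h
    rw [Le_coeff]
    simp only [hP]
    -- reindex by `j = e - x.2`
    rw [← Finset.sum_filter]
    have hPe : ∑ j ∈ Icc 1 ρ, (e.choose j : ZMod p) * β j =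
        ∑ j ∈ (Icc 1 ρ).filter (fun j => j ≤ e ∧ ρ ≤ δ + j), (e.choose j : ZMod p) * β j := by
      symm
      apply sum_subset (filter_subset _ _)
      intro j hj hj'
      rw [mem_filter, not_and, not_and_or] at hj'
      rcases hj' hj with h1 | h1
      · rw [Nat.choose_eq_zero_of_lt (by omega)]; simp
      · simp only [hβ]; rw [if_neg h1, mul_zero]
    rw [hPe]
    refine Finset.sum_bij_ne_zero (fun x _ _ => e - x.2) ?_ ?_ ?_ ?_
    · intro x hx hne
      rw [mem_filter, HasAntidiagonal.mem_antidiagonal] at hx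
      have hx1 : x.1 ≤ δ := by
        by_contra h2
        exact hne (by rw [hmom0 x.1 _ (by omega), mul_zero])
      rw [mem_filter, mem_Icc]
      omega
    · intro x hx _ y hy _ hxy
      rw [mem_filter, HasAntidiagonal.mem_antidiagonal] at hx hy
      have h2 : x.2 = y.2 := by omega
      have h1 : x.1 = y.1 := by omega
      exact Prod.ext h1 h2
    · intro j hj hne
      rw [mem_filter, mem_Icc] at hj
      refine ⟨(δ + j - ρ, e - j), ?_, ?_, ?_⟩
      · rw [mem_filter, HasAntidiagonal.mem_antidiagonal]
        simp only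
        omega
      · simp only
        intro h0
        apply hne
        simp only [hβ]
        rw [if_pos hj.2.2]
        have : e - (e - j) = j := by omega
        rw [this] at h0
        exact h0
      · simp only
        omega
    · intro x hx hne
      rw [mem_filter, HasAntidiagonal.mem_antidiagonal] at hx
      simp only [hβ]
      have hx1 : x.1 ≤ δ := by
        by_contra h2
        exact hne (by rw [hmom0 x.1 _ (by omega), mul_zero])
      rw [if_pos (by omega)]
      have : δ + (e - x.2) - ρ = x.1 := by omega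
      rw [this]
  -- the zeros of `P`
  have hroots : ((range p).filter fun e => P e = 0).card ≤ ρ := by
    set Ph : (ZMod p)[X] := ∑ j ∈ Icc 1 ρ,
      C (β j * (j.factorial : ZMod p)⁻¹) * descPochhammer (ZMod p) j with hPh
    have hev : ∀ e : ℕ, Ph.eval (e : ZMod p) = P e := by
      intro e
      rw [hPh, eval_finsetSum]
      simp only [hP]
      refine sum_congr rfl fun j hj => ?_
      rw [mem_Icc] at hj
      rw [eval_mul, eval_C, descPochhammer_eval_eq_descFactorial,
        Nat.descFactorial_eq_factorial_mul_choose, Nat.cast_mul]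
      have hf : (j.factorial : ZMod p) ≠ 0 := by
        intro h0
        rw [ZMod.natCast_eq_zero_iff, Nat.Prime.dvd_factorial hpF.out] at h0
        omega
      field_simp
    have hne : Ph ≠ 0 := by
      obtain ⟨n, j, h1, h2, h3, h4⟩ := hρspec
      have hex' : ∃ j, j ∈ Icc 1 ρ ∧ β j ≠ 0 := by
        refine ⟨j, by rw [mem_Icc]; omega, ?_⟩
        simp only [hβ]
        rw [if_pos (by omega), show δ + j - ρ = n by omega]
        exact h4
      have h5 := Nat.find_spec hex'
      have h6 := fun m (hm : m < Nat.find hex') => Nat.find_min hex' hm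
      set j1 := Nat.find hex'
      intro h0
      have h7 := hev j1
      rw [h0, eval_zero] at h7
      simp only [hP] at h7
      rw [Finset.sum_eq_single j1] at h7
      · rw [Nat.choose_self, Nat.cast_one, one_mul] at h7
        exact h5.2 h7.symm
      · intro j' hj' hne'
        rcases Nat.lt_or_gt_of_ne hne' with hlt | hgt
        · have := h6 j' hlt
          rw [not_and, not_not] at this
          rw [this hj', mul_zero]
        · rw [Nat.choose_eq_zero_of_lt hgt]; simp
      · intro h
        exact absurd h5.1 h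
    have hd : Ph.natDegree ≤ ρ := by
      rw [hPh]
      refine natDegree_sum_le_of_forall_le _ _ fun j hj => ?_
      rw [mem_Icc] at hj
      refine (natDegree_C_mul_le _ _).trans ?_
      rw [descPochhammer_natDegree]
      exact hj.2
    calc ((range p).filter fun e => P e = 0).card ≤ Ph.roots.toFinset.card := by
          refine Finset.card_le_card_of_injOn (fun e => (e : ZMod p)) ?_ ?_
          · intro e he
            rw [mem_coe, mem_filter] at he
            rw [mem_coe, Multiset.mem_toFinset, mem_roots hne, IsRoot, hev]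
            exact he.2
          · intro e he e' he' hee
            rw [mem_coe, mem_filter, mem_range] at he he'
            rw [ZMod.natCast_eq_natCast_iff'] at hee
            rwa [Nat.mod_eq_of_lt he.1, Nat.mod_eq_of_lt he'.1] at hee
      _ ≤ Multiset.card Ph.roots := Multiset.toFinset_card_le _
      _ ≤ Ph.natDegree := card_roots' _
      _ ≤ ρ := hd
  set Q : Finset ℕ := (range p).filter fun e => P e ≠ 0 ∧ e + δ < p + ρ with hQ
  have hQcard : p ≤ Q.card + max S.card δ := by
    have h1 : range p ⊆ (((range p).filter fun e => P e = 0) ∪ Q) ∪ Ico (p + ρ - δ) p := by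
      intro e he
      rw [mem_union, mem_union, hQ, mem_filter, mem_filter, mem_Ico]
      have he' := mem_range.1 he
      by_cases h2 : P e = 0
      · exact Or.inl (Or.inl ⟨he, h2⟩)
      · by_cases h3 : e + δ < p + ρ
        · exact Or.inl (Or.inr ⟨he, h2, h3⟩)
        · exact Or.inr (by omega)
    have h2 := card_le_card h1
    rw [card_range] at h2
    have h3 := card_union_le (((range p).filter fun e => P e = 0) ∪ Q) (Ico (p + ρ - δ) p)
    have h4 := card_union_le ((range p).filter fun e => P e = 0) Q
    rw [Nat.card_Ico] at h3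
    have h5 : ρ ≤ max S.card δ := hρS.trans (le_max_left _ _)
    have h6 : δ ≤ max S.card δ := le_max_right _ _
    omega
  -- injectivity
  set Ψ : (Q → ZMod p) →ₗ[ZMod p] (ZMod p → ZMod p) :=
    { toFun := fun z x => ∑ e : Q, z e * x ^ (e : ℕ)
      map_add' := by
        intro z z'
        funext x
        simp only [Pi.add_apply]
        rw [← sum_add_distrib]
        exact sum_congr rfl fun e _ => by ring
      map_smul' := by
        intro r z
        funext x
        simp only [Pi.smul_apply, smul_eq_mul, RingHom.id_apply]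
        rw [mul_sum]
        exact sum_congr rfl fun e _ => by ring } with hΨ
  have hinj : Function.Injective (Lap S W ∘ₗ Ψ) := by
    rw [← LinearMap.ker_eq_bot, LinearMap.ker_eq_bot']
    intro z hz
    by_contra hne
    set z' : ℕ → ZMod p := fun e => if h : e ∈ Q then z ⟨e, h⟩ else 0 with hz'
    have hzz : Ψ z = fun x => ∑ e ∈ Q, z' e * x ^ e := by
      funext x
      show ∑ e : Q, z e * x ^ (e : ℕ) = _
      rw [← Finset.sum_coe_sort Q (fun e => z' e * x ^ e)]
      refine sum_congr rfl fun e _ => ?_
      simp only [hz']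
      rw [dif_pos e.2]
    have hex2 : (Q.filter fun e => z' e ≠ 0).Nonempty := by
      by_contra hemp
      rw [Finset.not_nonempty_iff_eq_empty, Finset.filter_eq_empty_iff] at hemp
      apply hne
      funext e
      have := hemp e.2
      rw [not_not] at this
      simp only [hz'] at this
      rw [dif_pos e.2] at this
      exact this
    obtain ⟨e0, he0, hmax⟩ := (Q.filter fun e => z' e ≠ 0).exists_max_image id hex2
    rw [mem_filter, hQ, mem_filter, mem_range] at he0
    obtain ⟨⟨he0p, hPe0, he0δ⟩, hz0⟩ := he0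
    have hN : ∃ N, N + ρ = e0 + δ := by
      have : ∃ j ∈ Icc 1 ρ, (e0.choose j : ZMod p) * β j ≠ 0 := by
        by_contra h
        push Not at h
        exact hPe0 (sum_eq_zero h)
      obtain ⟨j, hj, h1⟩ := this
      have h2 : j ≤ e0 := by
        by_contra h3
        rw [Nat.choose_eq_zero_of_lt (by omega)] at h1
        simp at h1
      have h3 : ρ ≤ δ + j := by
        by_contra h4
        simp only [hβ] at h1
        rw [if_neg h4, mul_zero] at h1
        exact h1 rfl
      exact ⟨e0 + δ - ρ, by omega⟩
    obtain ⟨N, hN⟩ := hN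
    set R : (ZMod p)[X] := ∑ e ∈ Q, C (z' e) * Le S W e with hR
    have hRc : ∀ M, N < M → R.coeff M = 0 := by
      intro M hM
      rw [hR, finsetSum_coeff]
      refine sum_eq_zero fun e he => ?_
      rw [coeff_C_mul]
      by_cases h1 : z' e = 0
      · rw [h1, zero_mul]
      · have h2 : e ≤ e0 := hmax e (by rw [mem_filter]; exact ⟨he, h1⟩)
        rw [hhigh e M (by omega), mul_zero]
    have hRN : R.coeff N = z' e0 * P e0 := by
      rw [hR, finsetSum_coeff, Finset.sum_eq_single e0]
      · rw [coeff_C_mul, hlead e0 N hN]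
      · intro e he hee
        rw [coeff_C_mul]
        by_cases h1 : z' e = 0
        · rw [h1, zero_mul]
        · have h2 : e ≤ e0 := hmax e (by rw [mem_filter]; exact ⟨he, h1⟩)
          rw [hhigh e N (by omega), mul_zero]
      · intro h
        exfalso
        apply h
        rw [hQ, mem_filter, mem_range]
        exact ⟨he0p, hPe0, he0δ⟩
    have hR0 : R = 0 := by
      refine eq_zero_of_natDegree_lt_card_of_eval_eq_zero' R univ ?_ ?_
      · intro g _
        rw [hR, ← lap_sum, ← hzz]
        exact congrFun hz g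
      · rw [card_univ, ZMod.card]
        have : R.natDegree ≤ N := by
          rw [natDegree_le_iff_coeff_eq_zero]
          exact hRc
        omega
    rw [hR0, coeff_zero] at hRN
    rcases mul_eq_zero.1 hRN.symm with h | h
    · exact hz0 h
    · exact hPe0 h
  have h1 : Q.card ≤ Module.finrank (ZMod p) (LinearMap.range (Lap S W)) := by
    have h2 := LinearMap.finrank_range_of_inj hinj
    rw [Module.finrank_fintype_fun_eq_card, Fintype.card_coe] at h2
    rw [← h2]
    exact Submodule.finrank_mono (LinearMap.range_comp_le_range _ _)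
  have h2 := LinearMap.finrank_range_add_finrank_ker (Lap S W)
  rw [Module.finrank_fintype_fun_eq_card, ZMod.card] at h2
  omega

end Pool.Agent.T2h34.Circ
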