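import Mathlib
import Pool.Agent.T2h34.Circ.Mat
import Pool.Agent.T2h34.Circ.Null

set_option autoImplicit false
set_option linter.unusedSectionVars false

/-! Independence of circulant graphs with `k` classes in dimension `k + 1`. -/

namespace Pool.Agent.T2h34.Circ

open Finset Matrix Polynomial

variable {p : ℕ} [hpF : Fact p.Prime]

/-! ### Differences -/

theorem fwdDiff_iter_p (f : ZMod p → ZMod p) : (fwdDiff (1 : ZMod p))^[p] f = 0 := by
  have h1 := fun f : ZMod p → ZMod p => fwdDiff_iter_eq_sum_shift (1 : ZMod p) f p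
  funext y
  rw [h1]
  have hp0 := hpF.out.pos
  rw [Finset.sum_eq_add_of_mem 0 p (by simp) (by simp) hp0.ne]
  · simp
  · intro c hc hcc
    rw [mem_range] at hc
    have : p ∣ p.choose c := hpF.out.dvd_choose_self hcc.1 (by omega)
    have h2 : ((p.choose c : ℕ) : ZMod p) = 0 := (ZMod.natCast_eq_zero_iff _ _).2 this
    rw [zsmul_eq_mul]
    push_cast
    rw [h2]
    ring

/-- functions with vanishing `D`-th difference are polynomials of degree less than `D` -/
theorem exists_poly (D : ℕ) (hD : D ≤ p) (f : ZMod p → ZMod p)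
    (hf : (fwdDiff (1 : ZMod p))^[D] f = 0) :
    ∃ R : (ZMod p)[X], (∀ n, D ≤ n → R.coeff n = 0) ∧ ∀ g, R.eval g = f g := by
  set c : ℕ → ZMod p := fun j => (fwdDiff (1 : ZMod p))^[j] f 0 with hc
  have hc0 : ∀ j, D ≤ j → c j = 0 := by
    intro j hj
    obtain ⟨i, rfl⟩ := Nat.exists_eq_add_of_le' hj
    simp only [hc]
    rw [Function.iterate_add_apply, hf]
    have : ∀ i : ℕ, (fwdDiff (1 : ZMod p))^[i] (0 : ZMod p → ZMod p) = 0 := by
      intro i
      induction i with
      | zero => rfl
      | succ i ih =>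
        rw [Function.iterate_succ_apply', ih]
        funext x
        simp [fwdDiff]
    rw [this]
    rfl
  refine ⟨∑ j ∈ range D, C (c j * (j.factorial : ZMod p)⁻¹) * descPochhammer (ZMod p) j, ?_, ?_⟩
  · intro n hn
    rw [finsetSum_coeff]
    refine sum_eq_zero fun j hj => ?_
    rw [mem_range] at hj
    rw [coeff_C_mul, coeff_eq_zero_of_natDegree_lt, mul_zero]
    rw [descPochhammer_natDegree]
    omega
  · intro g
    rw [eval_finsetSum]
    have h1 : ∀ j ∈ range D, (C (c j * (j.factorial : ZMod p)⁻¹) * descPochhammer (ZMod p) j).eval g =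
        (g.val.choose j : ZMod p) * c j := by
      intro j hj
      rw [mem_range] at hj
      have hf : (j.factorial : ZMod p) ≠ 0 := by
        intro h0
        rw [ZMod.natCast_eq_zero_iff, Nat.Prime.dvd_factorial hpF.out] at h0
        omega
      conv_lhs => rw [← ZMod.natCast_zmod_val g]
      rw [eval_mul, eval_C, descPochhammer_eval_eq_descFactorial,
        Nat.descFactorial_eq_factorial_mul_choose, Nat.cast_mul]
      field_simp
    rw [sum_congr rfl h1]
    have h2 := shift_eq_sum_fwdDiff_iter (1 : ZMod p) f g.val 0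
    rw [zero_add, nsmul_eq_mul, mul_one, ZMod.natCast_zmod_val] at h2
    rw [h2]
    have h3 : ∀ N, (∑ j ∈ range D, (g.val.choose j : ZMod p) * c j) =
        ∑ j ∈ range (D + N), (g.val.choose j : ZMod p) * c j := by
      intro N
      apply sum_subset
      · intro j hj
        rw [mem_range] at *
        omega
      · intro j _ hj
        rw [mem_range, not_lt] at hj
        rw [hc0 j hj, mul_zero]
    have h4 : (∑ j ∈ range (g.val + 1), g.val.choose j • (fwdDiff (1 : ZMod p))^[j] f 0) =
        ∑ j ∈ range (D + (g.val + 1)), (g.val.choose j : ZMod p) * c j := by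
      simp only [nsmul_eq_mul]
      apply sum_subset
      · intro j hj
        rw [mem_range] at *
        omega
      · intro j _ hj
        rw [mem_range, not_lt] at hj
        rw [Nat.choose_eq_zero_of_lt (by omega)]
        simp
    rw [h4, h3 (g.val + 1)]

/-! ### Stresses -/

/-- the stress operator: `w (g, t)` is the weight of the edge from `g` to `g + t` -/
def St (T : Finset (ZMod p)) (w : ZMod p × T → ZMod p) (z : ZMod p → ZMod p) (g : ZMod p) :
    ZMod p :=
  ∑ t : T, (w (g, t) * (z (g + t) - z g) + w (g - t, t) * (z (g - t) - z g))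

theorem St_eq {d : ℕ} (T : Finset (ZMod p)) (q : ZMod p → Fin d → ZMod p)
    (w : ZMod p × T → ZMod p) (g : ZMod p) (i : Fin d) :
    ((RM T q)ᵀ *ᵥ w) (g, i) = - St T w (fun x => q x i) g := by
  rw [RM_transpose_mulVec]
  unfold St
  rw [← sum_neg_distrib]
  refine sum_congr rfl fun t _ => ?_
  ring

/-- the stresses of the placement on the moment curve in dimension `k` -/
noncomputable def WW (k : ℕ) (T : Finset (ZMod p)) : Submodule (ZMod p) (ZMod p × T → ZMod p) :=
  LinearMap.ker ((RM T (mc k (ZMod p)))ᵀ).mulVecLin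

theorem mem_WW (k : ℕ) (T : Finset (ZMod p)) (w : ZMod p × T → ZMod p) :
    w ∈ WW k T ↔ ∀ i < k, ∀ g, St T w (fun x => x ^ (i + 1)) g = 0 := by
  unfold WW
  rw [LinearMap.mem_ker, mulVecLin_apply]
  constructor
  · intro h i hi g
    have := congrFun h (g, ⟨i, hi⟩)
    rw [St_eq] at this
    simp only [mc_zmod] at this
    rw [← neg_eq_zero]
    exact this
  · intro h
    funext x
    obtain ⟨g, i⟩ := x
    rw [St_eq]
    simp only [mc_zmod]
    rw [h i i.2 g]
    simp

theorem finrank_WW (k : ℕ) (T : Finset (ZMod p)) (hT0 : (0 : ZMod p) ∉ T) (hTn : ∀ t ∈ T, -t ∉ T)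
    (hk : T.card = k) : Module.finrank (ZMod p) (WW k T) ≤ k * (k + 1) / 2 := by
  classical
  set A := RM T (mc k (ZMod p) : ZMod p → Fin k → ZMod p) with hA
  have h1 := LinearMap.finrank_range_add_finrank_ker (Aᵀ).mulVecLin
  have h2 := LinearMap.finrank_range_add_finrank_ker A.mulVecLin
  rw [Module.finrank_fintype_fun_eq_card, Fintype.card_prod, ZMod.card, Fintype.card_coe] at h1
  rw [Module.finrank_fintype_fun_eq_card, Fintype.card_prod, ZMod.card, Fintype.card_fin] at h2
  have h3 : Module.finrank (ZMod p) (LinearMap.range (Aᵀ).mulVecLin) =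
      Module.finrank (ZMod p) (LinearMap.range A.mulVecLin) := Matrix.rank_transpose A
  have h4 : Module.finrank (ZMod p) (LinearMap.ker A.mulVecLin) ≤ k * (k + 1) / 2 := by
    rw [← card_sigma k, ← Module.finrank_fintype_fun_eq_card (ZMod p)
      (η := (Σ i : Fin k, Fin ((i : ℕ) + 1)))]
    refine LinearMap.finrank_le_finrank_of_injective
      (f := (LL k).comp (LinearMap.ker A.mulVecLin).subtype) ?_
    rw [← LinearMap.ker_eq_bot, LinearMap.ker_eq_bot']
    rintro ⟨v, hv⟩ hz
    rw [LinearMap.mem_ker, mulVecLin_apply] at hv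
    apply Subtype.ext
    set S : Finset (ZMod p) := T ∪ T.image (fun t => -t) with hS
    have hScard : S.card = 2 * k := by
      rw [hS, card_union_of_disjoint, card_image_of_injective _ neg_injective, hk]
      · ring
      · rw [disjoint_left]
        intro t ht ht'
        rw [mem_image] at ht'
        obtain ⟨t', ht', rfl⟩ := ht'
        exact hTn t' ht' ht
    have hS0 : (0 : ZMod p) ∉ S := by
      rw [hS, mem_union, mem_image]
      rintro (h | ⟨t, ht, h⟩)
      · exact hT0 h
      · rw [neg_eq_zero] at h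
        exact hT0 (h ▸ ht)
    refine RM_kernel_zmod S hS0 hScard.ge v ?_ hz
    funext x
    obtain ⟨g, ⟨s, hs⟩⟩ := x
    rw [RM_mulVec]
    rw [hS, mem_union, mem_image] at hs
    rcases hs with hs | ⟨t, ht, hts⟩
    · have := congrFun hv (g, ⟨s, hs⟩)
      rw [hA, RM_mulVec] at this
      exact this
    · have := congrFun hv (g + s, ⟨t, ht⟩)
      rw [hA, RM_mulVec] at this
      simp only at this ⊢
      have e1 : g + s + t = g := by rw [← hts]; ring
      rw [e1] at this
      refine Eq.trans ?_ this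
      exact sum_congr rfl fun i _ => by ring
  show Module.finrank (ZMod p) (LinearMap.ker (Aᵀ).mulVecLin) ≤ _
  rw [hk] at h1
  rw [mul_comm p k] at h1 h2
  omega

/-! ### Translation -/

/-- the difference operator on weights -/
def Nd (T : Finset (ZMod p)) : Module.End (ZMod p) (ZMod p × T → ZMod p) where
  toFun w x := w (x.1 + 1, x.2) - w x
  map_add' w w' := by
    funext x
    simp only [Pi.add_apply]
    ring
  map_smul' r w := by
    funext x
    simp only [Pi.smul_apply, smul_eq_mul, RingHom.id_apply]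
    ring

theorem Nd_pow (T : Finset (ZMod p)) (n : ℕ) (w : ZMod p × T → ZMod p) (t : T) :
    (fun g => (Nd T ^ n) w (g, t)) = (fwdDiff (1 : ZMod p))^[n] (fun g => w (g, t)) := by
  induction n with
  | zero => rfl
  | succ n ih =>
    rw [Function.iterate_succ_apply', ← ih, pow_succ']
    rfl

theorem St_sum (T : Finset (ZMod p)) (w : ZMod p × T → ZMod p) (c : ℕ → ZMod p) (n : ℕ)
    (g : ZMod p) : St T w (fun x => ∑ i ∈ range n, c i * x ^ i) g =
      ∑ i ∈ range n, c i * St T w (fun x => x ^ i) g := by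
  unfold St
  simp only [mul_sum]
  rw [sum_comm]
  refine sum_congr rfl fun t _ => ?_
  rw [← sum_sub_distrib, ← sum_sub_distrib, mul_sum, mul_sum, ← sum_add_distrib]
  refine sum_congr rfl fun i _ => ?_
  ring

theorem Nd_WW (k : ℕ) (T : Finset (ZMod p)) (w : ZMod p × T → ZMod p) (hw : w ∈ WW k T) :
    Nd T w ∈ WW k T := by
  rw [mem_WW] at *
  intro i hi g
  have h1 : St T (Nd T w) (fun x => x ^ (i + 1)) g =
      St T w (fun x => (x - 1) ^ (i + 1)) (g + 1) - St T w (fun x => x ^ (i + 1)) g := by
    unfold St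
    rw [← sum_sub_distrib]
    refine sum_congr rfl fun t _ => ?_
    show (w (g + 1, t) - w (g, t)) * _ + (w (g - t + 1, t) - w (g - t, t)) * _ = _
    have e1 : g + 1 + (t : ZMod p) - 1 = g + t := by ring
    have e3 : g + 1 - (t : ZMod p) = g - t + 1 := by ring
    simp only [e1, e3, add_sub_cancel_right]
    ring
  have h2 : (fun x : ZMod p => (x - 1) ^ (i + 1)) =
      fun x => ∑ m ∈ range (i + 1 + 1), ((-1) ^ (i + 1 - m) * ((i + 1).choose m : ZMod p)) * x ^ m := by
    funext x
    rw [sub_eq_add_neg, add_pow]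
    exact sum_congr rfl fun m _ => by ring
  rw [h1, hw i hi g, h2, St_sum, sub_zero]
  refine sum_eq_zero fun m hm => ?_
  rw [mem_range] at hm
  rcases Nat.eq_zero_or_pos m with rfl | hm0
  · have : St T w (fun x => x ^ 0) (g + 1) = 0 := by
      unfold St
      refine sum_eq_zero fun t _ => ?_
      simp
    rw [this, mul_zero]
  · obtain ⟨m', rfl⟩ : ∃ m', m = m' + 1 := ⟨m - 1, by omega⟩
    rw [hw m' (by omega), mul_zero]

theorem Nd_nil (k : ℕ) (T : Finset (ZMod p)) (D : ℕ) (hD : Module.finrank (ZMod p) (WW k T) ≤ D)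
    (w : ZMod p × T → ZMod p) (hw : w ∈ WW k T) : (Nd T ^ D) w = 0 := by
  set φ : Module.End (ZMod p) (WW k T) := (Nd T).restrict (Nd_WW k T) with hφ
  have hpow : ∀ n, ∀ v : WW k T, ((φ ^ n) v : ZMod p × T → ZMod p) = (Nd T ^ n) v := by
    intro n v
    rw [hφ, Module.End.pow_restrict]
    rfl
  have hnil : IsNilpotent φ := by
    refine ⟨p, ?_⟩
    ext v x
    rw [hpow]
    have := congrFun (Nd_pow T p v x.2) x.1
    rw [fwdDiff_iter_p] at this
    exact this
  have h1 := IsNilpotent.charpoly_eq_X_pow_finrank hnil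
  have h2 := LinearMap.aeval_self_charpoly φ
  rw [h1, map_pow, aeval_X] at h2
  have h3 : φ ^ D = 0 := by
    obtain ⟨j, rfl⟩ := Nat.exists_eq_add_of_le hD
    rw [pow_add, h2, zero_mul]
  have := hpow D ⟨w, hw⟩
  rw [h3] at this
  exact this.symm

/-! ### The nullity of a stress -/

theorem stress_nullity (k : ℕ) (T : Finset (ZMod p)) (hT0 : (0 : ZMod p) ∉ T)
    (hTn : ∀ t ∈ T, -t ∉ T) (hk : T.card = k) (D : ℕ) (hD : k * (k + 1) / 2 ≤ D) (hDp : D ≤ p)
    (w : ZMod p × T → ZMod p) (hw : w ∈ WW k T) (hw0 : w ≠ 0) :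
    ∃ (S : Finset (ZMod p)) (W : ZMod p → (ZMod p)[X]),
      (∀ z, St T w z = Lap S W z) ∧
      Module.finrank (ZMod p) (LinearMap.ker (Lap S W)) ≤ max (2 * k) (D - 1) := by
  classical
  have hpoly : ∀ t : T, ∃ R : (ZMod p)[X], (∀ n, D ≤ n → R.coeff n = 0) ∧
      ∀ g, R.eval g = w (g, t) := by
    intro t
    apply exists_poly D hDp
    rw [← Nd_pow, Nd_nil k T D ((finrank_WW k T hT0 hTn hk).trans hD) w hw]
    rfl
  choose R hR1 hR2 using hpoly
  set S : Finset (ZMod p) := T ∪ T.image (fun t => -t) with hS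
  have hdisj : Disjoint T (T.image (fun t => -t)) := by
    rw [disjoint_left]
    intro t ht ht'
    rw [mem_image] at ht'
    obtain ⟨t', ht', rfl⟩ := ht'
    exact hTn t' ht' ht
  have hScard : S.card = 2 * k := by
    rw [hS, card_union_of_disjoint hdisj, card_image_of_injective _ neg_injective, hk]
    ring
  have hS0 : (0 : ZMod p) ∉ S := by
    rw [hS, mem_union, mem_image]
    rintro (h | ⟨t, ht, h⟩)
    · exact hT0 h
    · rw [neg_eq_zero] at h
      exact hT0 (h ▸ ht)
  set W : ZMod p → (ZMod p)[X] := fun s => if h : s ∈ T then R ⟨s, h⟩ else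
    if h : -s ∈ T then (R ⟨-s, h⟩).comp (X + C s) else 0 with hW
  refine ⟨S, W, ?_, ?_⟩
  · intro z
    funext g
    show St T w z g = ∑ s ∈ S, (W s).eval g * (z (g + s) - z g)
    rw [hS, sum_union hdisj, sum_image (fun a _ b _ h => neg_injective h)]
    unfold St
    rw [sum_add_distrib, ← Finset.sum_coe_sort T (fun s => (W s).eval g * (z (g + s) - z g)),
      ← Finset.sum_coe_sort T (fun s => (W (-s)).eval g * (z (g + -s) - z g))]
    congr 1
    · refine sum_congr rfl fun t _ => ?_
      simp only [hW]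
      rw [dif_pos t.2, ← hR2]
    · refine sum_congr rfl fun t _ => ?_
      have hnt : -(t : ZMod p) ∉ T := hTn t t.2
      have ht' : -(-(t : ZMod p)) ∈ T := by rw [neg_neg]; exact t.2
      simp only [hW]
      rw [dif_neg hnt, dif_pos ht', eval_comp, eval_add, eval_X, eval_C]
      have : R ⟨-(-(t : ZMod p)), ht'⟩ = R t := by
        congr 1
        exact Subtype.ext (neg_neg _)
      rw [this, hR2, ← sub_eq_add_neg]
  · -- the degree
    have hex : ∃ t : T, R t ≠ 0 := by
      by_contra h
      push Not at h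
      apply hw0
      funext x
      have := hR2 x.2 x.1
      rw [h x.2, eval_zero] at this
      exact this.symm
    obtain ⟨t0, ht0⟩ := hex
    obtain ⟨t1, -, ht1⟩ := Finset.exists_max_image (univ.filter fun t : T => R t ≠ 0)
      (fun t => (R t).natDegree) ⟨t0, by rw [mem_filter]; exact ⟨mem_univ _, ht0⟩⟩
    have hmaxex := Finset.exists_max_image (univ.filter fun t : T => R t ≠ 0)
      (fun t => (R t).natDegree) ⟨t0, by rw [mem_filter]; exact ⟨mem_univ _, ht0⟩⟩
    obtain ⟨t1, ht1m, ht1⟩ := hmaxex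
    rw [mem_filter] at ht1m
    set δ := (R t1).natDegree with hδ
    have hδD : δ ≤ D - 1 := by
      have h1 : (R t1).coeff δ ≠ 0 := leadingCoeff_ne_zero.2 ht1m.2
      by_contra h2
      exact h1 (hR1 t1 δ (by omega))
    have hRδ : ∀ t, (R t).natDegree ≤ δ := by
      intro t
      by_cases h : R t = 0
      · rw [h, natDegree_zero]
        exact Nat.zero_le _
      · exact ht1 t (by rw [mem_filter]; exact ⟨mem_univ _, h⟩)
    have hSp := card_le_of_zero_notMem S hS0
    have := nullity_le S hS0 W δ (by omega) (by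
      intro s _
      simp only [hW]
      split_ifs with h1 h2
      · exact hRδ _
      · refine natDegree_comp_le.trans ?_
        rw [natDegree_X_add_C, mul_one]
        exact hRδ _
      · rw [natDegree_zero]
        exact Nat.zero_le _) ⟨t1, by rw [hS]; exact mem_union_left _ t1.2, by
        simp only [hW]
        rw [dif_pos t1.2]
        exact leadingCoeff_ne_zero.2 ht1m.2⟩
    rw [hScard] at this
    exact this.trans (max_le_max le_rfl hδD)

/-- a further coordinate without stresses -/
theorem exists_coord (k : ℕ) (T : Finset (ZMod p)) (hT0 : (0 : ZMod p) ∉ T)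
    (hTn : ∀ t ∈ T, -t ∉ T) (hk : T.card = k)
    (h1 : k * (k + 1) / 2 + 2 * k ≤ p) (h2 : k * (k + 1) / 2 + (k * (k + 1) / 2 - 1) ≤ p) :
    ∃ z : ZMod p → ZMod p, ∀ w ∈ WW k T, St T w z = 0 → w = 0 := by
  classical
  by_contra hcon
  push Not at hcon
  set D := k * (k + 1) / 2 with hD
  have hfin := finrank_WW k T hT0 hTn hk
  rw [← hD] at hfin
  choose w hw hwz hw0 using hcon
  -- the pairs
  set ν := max (2 * k) (D - 1) with hν
  have hker : ∀ v : WW k T, (v : ZMod p × T → ZMod p) ≠ 0 →
      ((univ : Finset (ZMod p → ZMod p)).filter fun z => St T v z = 0).card ≤ p ^ ν := by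
    intro v hv
    obtain ⟨S, W, hSW, hnull⟩ := stress_nullity k T hT0 hTn hk D le_rfl (by omega) v v.2 hv
    have e1 : ((univ : Finset (ZMod p → ZMod p)).filter fun z => St T v z = 0).card =
        Fintype.card (LinearMap.ker (Lap S W)) := by
      rw [← Fintype.card_subtype]
      refine Fintype.card_congr (Equiv.subtypeEquivRight fun z => ?_)
      rw [LinearMap.mem_ker, hSW]
    rw [e1, Module.card_eq_pow_finrank (K := ZMod p), ZMod.card]
    exact Nat.pow_le_pow_right hpF.out.pos hnull
  have hcover : (univ : Finset (ZMod p → ZMod p)) ⊆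
      ((univ : Finset (WW k T)).filter fun v => v ≠ 0).biUnion
        fun v => (univ : Finset (ZMod p → ZMod p)).filter fun z => St T v z = 0 := by
    intro z _
    rw [mem_biUnion]
    refine ⟨⟨w z, hw z⟩, ?_, ?_⟩
    · rw [mem_filter]
      refine ⟨mem_univ _, fun h => hw0 z ?_⟩
      exact congrArg Subtype.val h
    · rw [mem_filter]
      exact ⟨mem_univ _, hwz z⟩
  have h3 := card_le_card hcover
  have h4 : (((univ : Finset (WW k T)).filter fun v => v ≠ 0).biUnion
        fun v => (univ : Finset (ZMod p → ZMod p)).filter fun z => St T v z = 0).card ≤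
      ((univ : Finset (WW k T)).filter fun v => v ≠ 0).card * p ^ ν := by
    refine Finset.card_biUnion_le_card_mul _ _ _ fun v hv => ?_
    rw [mem_filter] at hv
    exact hker v fun h => hv.2 (Subtype.ext h)
  have h5 : (univ : Finset (ZMod p → ZMod p)).card = p ^ p := by
    rw [card_univ, Fintype.card_fun, ZMod.card]
  have h6 : ((univ : Finset (WW k T)).filter fun v => v ≠ 0).card + 1 ≤ p ^ D := by
    have h7 : (univ : Finset (WW k T)).card ≤ p ^ D := by
      rw [card_univ, Module.card_eq_pow_finrank (K := ZMod p), ZMod.card]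
      exact Nat.pow_le_pow_right hpF.out.pos hfin
    have h8 : ((univ : Finset (WW k T)).filter fun v => v ≠ 0).card <
        (univ : Finset (WW k T)).card := by
      apply card_lt_card
      rw [Finset.filter_ssubset]
      exact ⟨0, mem_univ _, by simp⟩
    omega
  have h7 : D + ν ≤ p := by
    rw [hν]
    omega
  have h8 : p ^ (D + ν) ≤ p ^ p := Nat.pow_le_pow_right hpF.out.pos h7
  have h9 : 0 < p ^ ν := pow_pos hpF.out.pos _
  rw [pow_add] at h8
  rw [h5] at h3
  have h10 : (((univ : Finset (WW k T)).filter fun v => v ≠ 0).card + 1) * p ^ ν ≤ p ^ D * p ^ ν :=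
    Nat.mul_le_mul_right _ h6
  rw [add_mul, one_mul] at h10
  omega

end Pool.Agent.T2h34.Circ
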