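import Mathlib
import Pool.Agent.T2h34.Circ.Stress

set_option autoImplicit false
set_option linter.unusedSectionVars false

/-! The generic rank of circulant graphs of prime order. -/

namespace Pool.Agent.T2h34.Circ

open Finset Matrix Pool.Agent.H283R2.DR Pool.Agent.H789R5

variable {p : ℕ} [hpF : Fact p.Prime]

/-! ### General bounds -/

theorem rank_le_genRank {V : Type} [Fintype V] {d : ℕ} (G : SimpleGraph V) (q : V → Fin d → ℝ) :
    d * Fintype.card V ≤ genRank d G + mo G q := by
  obtain ⟨q', hq'⟩ := exists_mg V d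
  have h1 := genRank_add hq' G
  have h2 := hq'.min G q
  omega

theorem genRank_le_edges {V : Type} [Fintype V] {d : ℕ} (G : SimpleGraph V) :
    genRank d G ≤ G.edgeSet.ncard := by
  classical
  unfold genRank
  refine csSup_le' ?_
  rintro _ ⟨q, rfl⟩
  have h := Matrix.rank_le_card_height (rigidityMatrix G q)
  rwa [← Nat.card_eq_fintype_card] at h

theorem triv_le_mo {V : Type} [Fintype V] {d : ℕ} (G : SimpleGraph V) (hd : d ≤ Fintype.card V)
    {q : V → Fin d → ℝ} (hq : MG q) : d * (d + 1) / 2 ≤ mo G q := by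
  have h1 : Module.finrank ℝ (LinearMap.range (TA.triv q)) = d * (d + 1) / 2 := by
    rw [LinearMap.finrank_range_of_inj (triv_inj hq hd), finrank_triv]
  rw [← h1]
  exact Submodule.finrank_mono (TA.range_triv_le G q)

theorem genRank_le_triv {V : Type} [Fintype V] {d : ℕ} (G : SimpleGraph V)
    (hd : d ≤ Fintype.card V) : genRank d G + d * (d + 1) / 2 ≤ d * Fintype.card V := by
  obtain ⟨q', hq'⟩ := exists_mg V d
  have h1 := genRank_add hq' G
  have h2 := triv_le_mo G hd hq'
  omega

theorem genRigid_of_mo {V : Type} [Fintype V] {d : ℕ} (G : SimpleGraph V)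
    (hd : d ≤ Fintype.card V) {q : V → Fin d → ℝ} (h : mo G q ≤ d * (d + 1) / 2) :
    GenRigid d G := by
  obtain ⟨q', hq'⟩ := exists_mg V d
  rw [genRigid_iff hq' hd]
  exact (hq'.min G q).trans h

theorem genRigid_iff_rank {V : Type} [Fintype V] {d : ℕ} (G : SimpleGraph V)
    (hd : d ≤ Fintype.card V) :
    GenRigid d G ↔ genRank d G + d * (d + 1) / 2 = d * Fintype.card V := by
  obtain ⟨q', hq'⟩ := exists_mg V d
  rw [genRigid_iff hq' hd]
  have h1 := genRank_add hq' G
  have h2 := triv_le_mo G hd hq'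
  omega

/-! ### Independent rows -/

/-- extension of antisymmetric sets -/
theorem exists_ext (hp2 : p ≠ 2) (k : ℕ) (hk : 2 * k + 1 ≤ p) : ∀ (n : ℕ) (T : Finset (ZMod p)),
    (0 : ZMod p) ∉ T → (∀ t ∈ T, -t ∉ T) → T.card + n = k →
    ∃ T' : Finset (ZMod p), T ⊆ T' ∧ (0 : ZMod p) ∉ T' ∧ (∀ t ∈ T', -t ∉ T') ∧ T'.card = k := by
  classical
  intro n
  induction n with
  | zero =>
    intro T h0 hn hc
    exact ⟨T, subset_rfl, h0, hn, hc⟩
  | succ n ih =>
    intro T h0 hn hc
    have h1 : (insert 0 (T ∪ T.image (fun t => -t))).card < (univ : Finset (ZMod p)).card := by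
      rw [card_univ, ZMod.card]
      have h2 := card_insert_le (0 : ZMod p) (T ∪ T.image (fun t => -t))
      have h3 := card_union_le T (T.image (fun t => -t))
      have h4 := card_image_le (s := T) (f := fun t : ZMod p => -t)
      omega
    obtain ⟨x, -, hx⟩ := exists_mem_notMem_of_card_lt_card h1
    rw [mem_insert, mem_union, mem_image] at hx
    push Not at hx
    obtain ⟨hx0, hxT, hxn⟩ := hx
    have hxn' : -x ∉ T := fun h => hxn (-x) h (neg_neg x)
    have hxx : -x ≠ x := by
      intro h
      have h2 : (2 : ZMod p) * x = 0 := by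
        have : x + x = 0 := by
          conv_lhs => rw [← h]
          rw [h]
          nth_rewrite 1 [← h]
          exact neg_add_cancel x
        rw [two_mul]; exact this
      rcases mul_eq_zero.1 h2 with h3 | h3
      · have : ((2 : ℕ) : ZMod p) ≠ 0 := cast_ne_zero_of (by norm_num)
          (lt_of_le_of_ne hpF.out.two_le (Ne.symm hp2))
        exact this (by exact_mod_cast h3)
      · exact hx0 h3
    obtain ⟨T', h5, h6, h7, h8⟩ := ih (insert x T) (by
      rw [mem_insert, not_or]; exact ⟨fun h => hx0 h.symm, h0⟩) (by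
      intro t ht ht'
      rw [mem_insert] at ht ht'
      rcases ht with rfl | ht
      · rcases ht' with h | h
        · exact hxx h
        · exact hxn' h
      · rcases ht' with h | h
        · exact hxn' (by rw [← h, neg_neg]; exact ht)
        · exact hn t ht h) (by
      rw [card_insert_of_notMem hxT]
      omega)
    exact ⟨T', (subset_insert _ _).trans h5, h6, h7, h8⟩

theorem mo_le_of_T (hp2 : p ≠ 2) (k : ℕ) (h1 : k * (k + 1) / 2 + 2 * k ≤ p)
    (h2 : k * (k + 1) / 2 + (k * (k + 1) / 2 - 1) ≤ p) (h3 : 2 * k + 1 ≤ p)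
    (T : Finset (ZMod p)) (hT0 : (0 : ZMod p) ∉ T) (hTn : ∀ t ∈ T, -t ∉ T) (hk : T.card ≤ k)
    {G : SimpleGraph (ZMod p)} (hG : ∀ g, ∀ t ∈ T, G.Adj g (g + t)) :
    ∃ q : ZMod p → Fin (k + 1) → ℝ, mo G q + p * T.card ≤ (k + 1) * p := by
  classical
  obtain ⟨T', hTT', hT'0, hT'n, hT'k⟩ := exists_ext hp2 k h3 (k - T.card) T hT0 hTn (by omega)
  obtain ⟨z, hz⟩ := exists_coord k T' hT'0 hT'n hT'k h1 h2
  set qz : ZMod p → Fin (k + 1) → ℤ := fun g => Fin.snoc (mc k ℤ g) ((z g).val : ℤ) with hqz
  have hqp : (fun g i => Int.castRingHom (ZMod p) (qz g i)) =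
      fun g => (Fin.snoc (mc k (ZMod p) g) (z g) : Fin (k + 1) → ZMod p) := by
    funext g i
    simp only [hqz]
    refine Fin.lastCases ?_ (fun j => ?_) i
    · rw [Fin.snoc_last, Fin.snoc_last]
      simp
    · rw [Fin.snoc_castSucc, Fin.snoc_castSucc]
      have := congrFun (congrFun (mc_map (p := p) (d := k) (Int.castRingHom (ZMod p))) g) j
      exact this
  have hinj := inj_lift (p := p) (RM T qz)ᵀ (by
    intro w hw
    have e1 : ((RM T qz)ᵀ).map (Int.cast : ℤ → ZMod p) =
        (RM T fun g => (Fin.snoc (mc k (ZMod p) g) (z g) : Fin (k + 1) → ZMod p))ᵀ := by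
      have := RM_map T qz (Int.castRingHom (ZMod p))
      rw [hqp] at this
      rw [← this]
      rfl
    rw [e1] at hw
    set w' : ZMod p × T' → ZMod p := fun x => if h : (x.2 : ZMod p) ∈ T then w (x.1, ⟨x.2, h⟩) else 0
      with hw'
    have hSt : ∀ zz g, St T' w' zz g = St T w zz g := by
      intro zz g
      unfold St
      have h5 : ∀ x : ZMod p, (if h : x ∈ T' then
          (w' (g, ⟨x, h⟩) * (zz (g + x) - zz g) + w' (g - x, ⟨x, h⟩) * (zz (g - x) - zz g)) else 0) =
          if h : x ∈ T then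
          (w (g, ⟨x, h⟩) * (zz (g + x) - zz g) + w (g - x, ⟨x, h⟩) * (zz (g - x) - zz g)) else 0 := by
        intro x
        by_cases hx : x ∈ T
        · rw [dif_pos (hTT' hx), dif_pos hx]
          simp only [hw']
          rw [dif_pos hx, dif_pos hx]
        · rw [dif_neg hx]
          split_ifs with hx'
          · simp only [hw']
            rw [dif_neg hx, dif_neg hx]
            ring
          · rfl
      have h6 : ∀ (U : Finset (ZMod p)) (f : U → ZMod p),
          ∑ t : U, f t = ∑ x : ZMod p, if h : x ∈ U then f ⟨x, h⟩ else 0 := by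
        intro U f
        have e1 : ∑ t : U, f t = ∑ t : U, (fun x : ZMod p => if h : x ∈ U then f ⟨x, h⟩ else 0) t :=
          sum_congr rfl fun t _ => by simp only; rw [dif_pos t.2]
        rw [e1, Finset.sum_coe_sort U (fun x : ZMod p => if h : x ∈ U then f ⟨x, h⟩ else 0)]
        apply sum_subset (subset_univ U)
        intro x _ hx
        rw [dif_neg hx]
      rw [h6 T', h6 T]
      exact sum_congr rfl fun x _ => h5 x
    have hwW : w' ∈ WW k T' := by
      rw [mem_WW]
      intro i hi g
      rw [hSt]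
      have := congrFun hw (g, Fin.castSucc ⟨i, hi⟩)
      rw [St_eq] at this
      simp only [Fin.snoc_castSucc, mc_zmod] at this
      rw [← neg_eq_zero]
      exact this
    have hw'0 := hz w' hwW (by
      funext g
      rw [hSt]
      have := congrFun hw (g, Fin.last k)
      rw [St_eq] at this
      simp only [Fin.snoc_last] at this
      rw [Pi.zero_apply, ← neg_eq_zero]
      exact this)
    funext x
    have := congrFun hw'0 (x.1, ⟨x.2, hTT' x.2.2⟩)
    simp only [hw'] at this
    rw [dif_pos x.2.2] at this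
    exact this)
  set q : ZMod p → Fin (k + 1) → ℝ := fun g i => (qz g i : ℝ) with hq
  have e2 : ((RM T qz)ᵀ).map (Int.cast : ℤ → ℝ) = (RM T q)ᵀ := by
    have := RM_map T qz (Int.castRingHom ℝ)
    rw [show (fun g i => Int.castRingHom ℝ (qz g i)) = q from rfl] at this
    rw [← this]
    rfl
  rw [e2] at hinj
  have hker : LinearMap.ker ((RM T q)ᵀ).mulVecLin = ⊥ := by
    rw [LinearMap.ker_eq_bot']
    intro w hw
    exact hinj w hw
  have h4 := LinearMap.finrank_range_add_finrank_ker ((RM T q)ᵀ).mulVecLin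
  rw [hker, finrank_bot, add_zero, Module.finrank_fintype_fun_eq_card, Fintype.card_prod,
    ZMod.card, Fintype.card_coe] at h4
  have h5 : Module.finrank ℝ (LinearMap.range ((RM T q)ᵀ).mulVecLin) =
      Module.finrank ℝ (LinearMap.range (RM T q).mulVecLin) := Matrix.rank_transpose (RM T q)
  have h6 := LinearMap.finrank_range_add_finrank_ker (RM T q).mulVecLin
  rw [Module.finrank_fintype_fun_eq_card, Fintype.card_prod, ZMod.card, Fintype.card_fin] at h6
  have h7 : mo G q ≤ Module.finrank ℝ (LinearMap.ker (RM T q).mulVecLin) := by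
    set Φ : Mot G q →ₗ[ℝ] (ZMod p × Fin (k + 1) → ℝ) :=
      ((LinearEquiv.curry ℝ ℝ (ZMod p) (Fin (k + 1))).symm :
        (ZMod p → Fin (k + 1) → ℝ) →ₗ[ℝ] (ZMod p × Fin (k + 1) → ℝ)) ∘ₗ (Mot G q).subtype with hΦ
    have hΦker : ∀ m : Mot G q, Φ m ∈ LinearMap.ker (RM T q).mulVecLin := by
      rintro ⟨m, hm⟩
      rw [mem_mot] at hm
      rw [LinearMap.mem_ker, mulVecLin_apply]
      funext x
      obtain ⟨g, t⟩ := x
      rw [RM_mulVec]
      have := hm (g + t) g (hG g t t.2).symm
      rw [dotProduct] at this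
      exact this
    refine LinearMap.finrank_le_finrank_of_injective (f := Φ.codRestrict _ hΦker) ?_
    intro m m' hmm
    have h8 := congrArg Subtype.val hmm
    have h9 : Φ m = Φ m' := h8
    apply Subtype.ext
    funext g i
    exact congrFun h9 (g, i)
  refine ⟨q, ?_⟩
  rw [mul_comm (k + 1) p]
  omega

end Pool.Agent.T2h34.Circ
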