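import Mathlib
import Pool.Agent.T2h34.Circ.Final

set_option autoImplicit false
set_option linter.unusedSectionVars false

/-! Vertex-transitive graphs of prime order are circulants, and their generic rank. -/

namespace Pool.Agent.T2h34.Circ

open Finset Matrix Pool.Agent.H283R2.DR Pool.Agent.H789R5

/-! ### Circulants -/

section Circulant

variable {p : ℕ} [hpF : Fact p.Prime]

theorem half_union (hp2 : p ≠ 2) (S : Finset (ZMod p)) (hS0 : (0 : ZMod p) ∉ S)
    (hSn : ∀ s ∈ S, -s ∈ S) : ∃ T ⊆ S, (∀ t ∈ T, -t ∉ T) ∧ S.card = 2 * T.card := by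
  classical
  have hlt : 2 < p := lt_of_le_of_ne hpF.out.two_le (Ne.symm hp2)
  have hodd : p % 2 = 1 := by
    rcases hpF.out.eq_two_or_odd with h | h
    · exact absurd h hp2
    · exact h
  have hval : ∀ s : ZMod p, s ≠ 0 → (-s).val = p - s.val := by
    intro s hs
    have := ZMod.neg_val s
    rw [if_neg hs] at this
    exact this
  set T := S.filter fun s => 2 * s.val < p with hT
  have hTn : ∀ t ∈ T, -t ∉ T := by
    intro t ht ht'
    rw [hT, mem_filter] at ht ht'
    have h0 : t ≠ 0 := fun h => hS0 (h ▸ ht.1)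
    rw [hval t h0] at ht'
    omega
  refine ⟨T, filter_subset _ _, hTn, ?_⟩
  have hS : S = T ∪ T.image (fun t => -t) := by
    ext s
    rw [mem_union, mem_image]
    constructor
    · intro hs
      have h0 : s ≠ 0 := fun h => hS0 (h ▸ hs)
      have h1 : s.val < p := ZMod.val_lt s
      by_cases h2 : 2 * s.val < p
      · exact Or.inl (by rw [hT, mem_filter]; exact ⟨hs, h2⟩)
      · refine Or.inr ⟨-s, ?_, neg_neg s⟩
        rw [hT, mem_filter, hval s h0]
        exact ⟨hSn s hs, by omega⟩
    · rintro (hs | ⟨t, ht, rfl⟩)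
      · exact (mem_filter.1 hs).1
      · exact hSn t (mem_filter.1 ht).1
  have hdisj : Disjoint T (T.image (fun t => -t)) := by
    rw [disjoint_left]
    intro t ht ht'
    rw [mem_image] at ht'
    obtain ⟨t', ht', rfl⟩ := ht'
    exact hTn t' ht' ht
  conv_lhs => rw [hS]
  rw [card_union_of_disjoint hdisj, card_image_of_injective _ neg_injective]
  ring

theorem circ_deg (G : SimpleGraph (ZMod p)) [DecidableRel G.Adj]
    (hG : ∀ u v x, G.Adj u v → G.Adj (u + x) (v + x)) (v : ZMod p) :
    G.degree v = (univ.filter fun s => G.Adj 0 s).card := by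
  classical
  rw [← SimpleGraph.card_neighborFinset_eq_degree]
  refine Finset.card_bij (fun w _ => w - v) ?_ ?_ ?_
  · intro w hw
    rw [SimpleGraph.mem_neighborFinset] at hw
    rw [mem_filter]
    have := hG _ _ (-v) hw
    rw [add_neg_cancel, ← sub_eq_add_neg] at this
    exact ⟨mem_univ _, this⟩
  · intro w _ w' _ h
    exact sub_left_injective h
  · intro s hs
    rw [mem_filter] at hs
    refine ⟨s + v, ?_, by ring⟩
    rw [SimpleGraph.mem_neighborFinset]
    have := hG _ _ v hs.2
    rwa [zero_add] at this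

theorem circ_main (hp2 : p ≠ 2) (G : SimpleGraph (ZMod p)) [DecidableRel G.Adj]
    (hG : ∀ u v x, G.Adj u v → G.Adj (u + x) (v + x)) :
    (∀ d, (∀ v, 2 * d ≤ G.degree v) → ∃ q : ZMod p → Fin d → ℝ, mo G q ≤ d * (d + 1) / 2) ∧
    (∀ d, 1 ≤ d → d * d + 1 ≤ p + d →
      genRank d G = min G.edgeSet.ncard (d * p - d * (d + 1) / 2)) ∧
    (∃ t, (∀ v, G.degree v = 2 * t) ∧ G.edgeSet.ncard = p * t) := by
  classical
  set S : Finset (ZMod p) := univ.filter fun s => G.Adj 0 s with hS
  have hS0 : (0 : ZMod p) ∉ S := by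
    rw [hS, mem_filter]
    exact fun h => G.loopless.irrefl 0 h.2
  have hSn : ∀ s ∈ S, -s ∈ S := by
    intro s hs
    rw [hS, mem_filter] at *
    have := hG _ _ (-s) hs.2
    rw [zero_add, add_neg_cancel] at this
    exact ⟨mem_univ _, this.symm⟩
  have hadj : ∀ g, ∀ s ∈ S, G.Adj g (g + s) := by
    intro g s hs
    rw [hS, mem_filter] at hs
    have := hG _ _ g hs.2
    rwa [zero_add, add_comm] at this
  obtain ⟨T, hTS, hTn, hTc⟩ := half_union hp2 S hS0 hSn
  have hdeg : ∀ v, G.degree v = 2 * T.card := fun v => by rw [circ_deg G hG v, ← hTc]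
  have hedge : G.edgeSet.ncard = p * T.card := by
    have h1 := G.sum_degrees_eq_twice_card_edges
    rw [sum_congr rfl fun v _ => hdeg v, sum_const, smul_eq_mul, card_univ, ZMod.card] at h1
    rw [← SimpleGraph.coe_edgeFinset, Set.ncard_coe_finset]
    nlinarith
  have hT0 : (0 : ZMod p) ∉ T := fun h => hS0 (hTS h)
  refine ⟨?_, ?_, ⟨T.card, hdeg, hedge⟩⟩
  · intro d hd
    refine mo_le_of_card S hS0 ?_ hadj
    have := hd 0
    rw [hdeg 0] at this
    omega
  · intro d hd1 hdp
    have hdle : d ≤ Fintype.card (ZMod p) := by rw [ZMod.card]; nlinarith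
    have hup1 := genRank_le_edges (d := d) G
    have hup2 := genRank_le_triv (d := d) G hdle
    rw [ZMod.card] at hup2
    rcases Nat.lt_or_ge T.card d with hlt | hge
    · obtain ⟨k, rfl⟩ : ∃ k, d = k + 1 := ⟨d - 1, by omega⟩
      have hk : k * k + k + 1 ≤ p := by nlinarith
      have hev : 2 * (k * (k + 1) / 2) = k * (k + 1) :=
        Nat.mul_div_cancel' (Nat.even_mul_succ_self k).two_dvd
      have hq2 : 4 * k ≤ k * k + k + 2 := by
        rcases Nat.lt_or_ge k 2 with h | h
        · interval_cases k <;> norm_num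
        · nlinarith
      have e : k * (k + 1) = k * k + k := by ring
      have hsq : k ≤ k * k := Nat.le_mul_self k
      obtain ⟨q, hq⟩ := mo_le_of_T hp2 k (by omega) (by omega) (by omega) T hT0 hTn (by omega)
        (fun g t ht => hadj g t (hTS ht))
      have h1 := rank_le_genRank G q
      rw [ZMod.card] at h1
      omega
    · obtain ⟨q, hq⟩ := mo_le_of_card (d := d) S hS0 (by omega) hadj
      have h1 := rank_le_genRank G q
      rw [ZMod.card] at h1
      have h2 : d * p ≤ p * T.card := by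
        rw [mul_comm d p]
        exact Nat.mul_le_mul_left p hge
      omega

end Circulant

/-! ### Turner's theorem -/

section Turner

variable {V : Type} [Fintype V]

theorem turner [DecidableEq V] (G : SimpleGraph V) (hp : (Fintype.card V).Prime)
    (hG : ∀ u v, ∃ φ : G ≃g G, φ u = v) :
    ∃ f : ZMod (Fintype.card V) ≃ V,
      ∀ a b x, G.Adj (f a) (f b) → G.Adj (f (a + x)) (f (b + x)) := by
  classical
  set p := Fintype.card V with hpdef
  have : Fact p.Prime := ⟨hp⟩
  -- the automorphism group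
  set A : Subgroup (Equiv.Perm V) :=
    { carrier := {σ | ∀ u v, G.Adj (σ u) (σ v) ↔ G.Adj u v}
      mul_mem' := by
        intro σ τ hσ hτ u v
        rw [Equiv.Perm.mul_apply, Equiv.Perm.mul_apply, hσ, hτ]
      one_mem' := fun u v => Iff.rfl
      inv_mem' := by
        intro σ hσ u v
        have := hσ (σ⁻¹ u) (σ⁻¹ v)
        have e : ∀ x, σ (σ⁻¹ x) = x := fun x => Equiv.apply_symm_apply σ x
        rw [e, e] at this
        exact this.symm } with hA
  have hmem : ∀ σ : Equiv.Perm V, σ ∈ A ↔ ∀ u v, G.Adj (σ u) (σ v) ↔ G.Adj u v := fun _ => Iff.rfl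
  have hVne : Nonempty V := Fintype.card_pos_iff.1 hp.pos
  obtain ⟨v0⟩ := hVne
  have horb : MulAction.orbit A v0 = Set.univ := by
    ext v
    simp only [Set.mem_univ, iff_true]
    obtain ⟨φ, hφ⟩ := hG v0 v
    exact ⟨⟨φ.toEquiv, (hmem _).2 fun u v => φ.map_rel_iff⟩, hφ⟩
  have hdvd : p ∣ Fintype.card A := by
    have h1 := MulAction.card_orbit_mul_card_stabilizer_eq_card_group A v0
    have h2 : Fintype.card (MulAction.orbit A v0) = p := by
      rw [hpdef]
      refine Fintype.card_congr ((Equiv.setCongr horb).trans (Equiv.Set.univ V))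
    rw [← h1, h2]
    exact dvd_mul_right _ _
  obtain ⟨σ, hσ⟩ := exists_prime_orderOf_dvd_card p hdvd
  have hord : orderOf (σ : Equiv.Perm V) = p := by rw [Subgroup.orderOf_coe, hσ]
  have hcyc : (σ : Equiv.Perm V).IsCycle := Equiv.Perm.isCycle_of_prime_order'' hp hord
  have hsupp : (σ : Equiv.Perm V).support = univ := by
    rw [← Finset.card_eq_iff_eq_univ, ← hcyc.orderOf, hord]
  have hmv : ∀ v, (σ : Equiv.Perm V) v ≠ v := by
    intro v
    rw [← Equiv.Perm.mem_support, hsupp]
    exact mem_univ v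
  have hpow : ∀ n, (σ : Equiv.Perm V) ^ (n % p) = (σ : Equiv.Perm V) ^ n := by
    intro n
    have := pow_mod_orderOf (σ : Equiv.Perm V) n
    rwa [hord] at this
  set f : ZMod p → V := fun k => ((σ : Equiv.Perm V) ^ k.val) v0 with hf
  have hadd : ∀ a x : ZMod p, f (a + x) = ((σ : Equiv.Perm V) ^ x.val) (f a) := by
    intro a x
    simp only [hf]
    rw [← Equiv.Perm.mul_apply, ← pow_add, ZMod.val_add, hpow, add_comm]
  have hsurj : Function.Surjective f := by
    intro v
    obtain ⟨i, hi⟩ := hcyc.exists_pow_eq (hmv v0) (hmv v)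
    refine ⟨(i : ZMod p), ?_⟩
    simp only [hf]
    rw [ZMod.val_natCast, ← hi, hpow]
  have hbij : Function.Bijective f := by
    rw [Fintype.bijective_iff_surjective_and_card]
    exact ⟨hsurj, by rw [ZMod.card]⟩
  refine ⟨Equiv.ofBijective f hbij, ?_⟩
  intro a b x h
  have h1 : (σ : Equiv.Perm V) ^ x.val ∈ A := A.pow_mem σ.2 _
  rw [Equiv.ofBijective_apply, Equiv.ofBijective_apply, hadd, hadd]
  exact ((hmem _).1 h1 _ _).2 h

theorem main [DecidableEq V] (G : SimpleGraph V) [DecidableRel G.Adj]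
    (hp : (Fintype.card V).Prime) (hp2 : Fintype.card V ≠ 2)
    (hG : ∀ u v, ∃ φ : G ≃g G, φ u = v) :
    (∀ d, (∀ v, 2 * d ≤ G.degree v) → GenRigid d G) ∧
    (∀ d, d * (d + 1) / 2 < Fintype.card V → (GenRigid d G ↔ ∀ v, 2 * d ≤ G.degree v)) ∧
    (∀ d, 1 ≤ d → d * d + 1 ≤ Fintype.card V + d →
      genRank d G = min G.edgeSet.ncard (d * Fintype.card V - d * (d + 1) / 2)) := by
  classical
  have : Fact (Fintype.card V).Prime := ⟨hp⟩
  obtain ⟨f, hf⟩ := turner G hp hG
  set H : SimpleGraph (ZMod (Fintype.card V)) := G.comap f with hH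
  set φ : H ≃g G := SimpleGraph.Iso.comap f G with hφ
  have hHt : ∀ u v x, H.Adj u v → H.Adj (u + x) (v + x) := by
    intro u v x h
    exact hf u v x h
  obtain ⟨h1, h2, t, h3, h4⟩ := circ_main hp2 H hHt
  have hdeg : ∀ v, G.degree v = 2 * t := by
    intro v
    rw [← h3 (φ.symm v)]
    have := φ.degree_eq (φ.symm v)
    rw [RelIso.apply_symm_apply] at this
    exact this
  have hedge : G.edgeSet.ncard = Fintype.card V * t := by
    rw [← h4]
    exact (Nat.card_congr φ.mapEdgeSet).symm
  have hdegp : ∀ v, G.degree v < Fintype.card V := fun v => G.degree_lt_card_verts v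
  have hp0 : 0 < Fintype.card V := hp.pos
  obtain ⟨v0⟩ : Nonempty V := Fintype.card_pos_iff.1 hp0
  have hpart1 : ∀ d, (∀ v, 2 * d ≤ G.degree v) → GenRigid d G := by
    intro d hd
    have hdp : d ≤ Fintype.card V := by
      have := hd v0
      have := hdegp v0
      omega
    obtain ⟨q, hq⟩ := h1 d (by
      intro v
      rw [h3]
      have := hd v0
      rw [hdeg] at this
      exact this)
    have := mo_iso φ.symm q
    exact genRigid_of_mo G hdp (q := fun v => q (φ.symm v)) (by rw [this]; exact hq)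
  refine ⟨hpart1, ?_, ?_⟩
  · intro d hd
    refine ⟨?_, hpart1 d⟩
    intro hr v
    have hdp : d ≤ Fintype.card V := by
      rcases Nat.eq_zero_or_pos d with rfl | h0
      · exact Nat.zero_le _
      · have : d * 2 ≤ d * (d + 1) := Nat.mul_le_mul_left d (by omega)
        omega
    rw [genRigid_iff_rank G hdp] at hr
    have h5 := genRank_le_edges (d := d) G
    rw [hedge] at h5
    rw [hdeg]
    by_contra hlt
    have h6 : t + 1 ≤ d := by omega
    have h7 : Fintype.card V * (t + 1) ≤ Fintype.card V * d := Nat.mul_le_mul_left _ h6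
    rw [mul_comm d (Fintype.card V)] at hr
    rw [mul_add, mul_one] at h7
    omega
  · intro d hd hdp
    rw [← genRank_iso φ, h2 d hd hdp, h4, hedge]

end Turner

end Pool.Agent.T2h34.Circ
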